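import Pool.Agent.MP_fbbd83_al.Pl.ConvT

/-! A cube of jumps taken in decreasing order of levels, and the doubling step with absolute
constants. -/

namespace Pool.Agent.MP_fbbd83_al.St

open Pl Pl.RT

variable {ω : ℕ → Fin 3}

theorem bad_cube {z : Fin 3} {m P : ℕ} (hz : inact (ω P) = z) (hm : m ≤ P + 1) (l : ℕ) :
    l ≤ m → ∃ (t : RT Lf) (L : List Tr) (ns : List ℕ) (c : ℕ), List.Forall₂ LevT L ns ∧ ns.Nodup ∧
      ns.length = l ∧ (∀ n ∈ ns, m - l ≤ n ∧ n < m) ∧ c + lenSum ω (m - l) ≤ lenSum ω m ∧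
      (∀ (f : Vx → ℝ) (v : Vx), E t (fun a => f (a.g.1 v)) = mkL L f v) ∧
      All t (fun a p => St (m - l) a.g ∧ Rep ω z (P + 1) a ∧
        (∀ v : Vx, v.length = P + 1 → a.k v ≤ 2 * l) ∧ a.dead = 0 ∧ InBall ω c a.g.1 ∧ p = []) ∧
      (∀ y : Vx, y.length = m →
        E t (fun a => ∑ v ∈ LV (P + 1 - m), (a.k (y ++ v) : ℝ)) ≤ 2 - 2 * (1 / 2) ^ l) ∧
      (∀ y : Vx, y.length = m → E t (fun a => ∑ v ∈ LV (P + 1 - m), (a.k (y ++ v) : ℝ) ^ 2) ≤
        12 - (8 * l + 12) * (1 / 2) ^ l) := by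
  induction l with
  | zero =>
    intro _
    refine ⟨.leaf Lf.one, [], [], 0, List.Forall₂.nil, List.nodup_nil, rfl, by simp, by simp,
      fun f v => rfl, ⟨St.one _, Rep.one z _, fun v _ => by simp [Lf.k, Lf.one], rfl,
        InBall.one ω 0, rfl⟩, fun y _ => ?_, fun y _ => ?_⟩ <;> simp [E, Lf.k, Lf.one]
  | succ l ih =>
    intro hl
    obtain ⟨t, L, ns, c, h1, h2, h3, h4, h5, h6, h7, h8, h9⟩ := ih (by omega)
    obtain ⟨n, hn⟩ : ∃ n, n = m - (l + 1) := ⟨_, rfl⟩
    have e1 : m - l = n + 1 := by omega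
    rw [e1] at h4 h5 h7
    rw [← hn]
    have hs : n = 0 ∨ col (ω (n - 1)) (sel ω n) = true := Or.inr (col_sel ω n)
    have lev : LevT (jumpL ω z n (sel ω n)).g n := jump_lev hs
    have rep := jumpL_rep z hs (M := P + 1) (by omega)
    have cyl : CylB n (P + 1) (jumpL ω z n (sel ω n)) 1 :=
      (jumpL_cyl (sel ω n) (by omega) hz).le (by split_ifs <;> omega)
    have ball : InBall ω (lenSum ω n) (jumpL ω z n (sel ω n)).g.1 := jump_ball ω n _
    have hd : (jumpL ω z n (sel ω n)).dead = 0 := rfl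
    generalize jumpL ω z n (sel ω n) = h at lev rep cyl ball hd
    have eE : ∀ f : Lf → ℝ, E (t.bind fun a => .node none (.leaf a) (.leaf (a.mul h))) f =
        E t f + (1 / 2) * E t (fun a => f (a.mul h) - f a) := by
      intro f
      rw [E_bind, ← E_mul, ← E_add]
      congr 1; funext a; simp only [E]; ring
    have key : ∀ y : Vx, y.length = m →
        E t (fun a => ∑ v ∈ LV (P + 1 - m), (h.k (a.g.1 (y ++ v)) : ℝ)) ≤ (1 / 2) ^ l * 2 := by
      intro y hy
      have e : ∀ a : Lf, ∑ v ∈ LV (P + 1 - m), (h.k (a.g.1 (y ++ v)) : ℝ) =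
          ∑ v ∈ LV (P + 1 - m), (h.k (a.g.1 y ++ v) : ℝ) :=
        fun a => sum_cyl a.g y _ (fun x => ((h.k x : ℕ) : ℝ))
      simp only [e]
      rw [h6 (fun y => ∑ v ∈ LV (P + 1 - m), (h.k (y ++ v) : ℝ)) y]
      refine (cube_le (b := n + 1) (t := l) h1 h2 (fun k hk => by have := h4 k hk; omega) _
        (fun y => by positivity) y (by omega)).trans ?_
      rw [h3]
      apply mul_le_mul_of_nonneg_left _ (by positivity)
      have := (cyl.mono (Nat.le_succ n) (by omega)).k (y.take (n + 1)) (by simp; omega)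
      rw [show P + 1 - (n + 1) = l + (P + 1 - m) by omega, sum_LV_add] at this
      simp only [List.append_assoc]
      exact_mod_cast this
    refine ⟨t.bind fun a => .node none (.leaf a) (.leaf (a.mul h)), L ++ [h.g], ns ++ [n],
      c + lenSum ω n, List.rel_append h1 (List.Forall₂.cons lev List.Forall₂.nil), ?_, by simp [h3],
      fun k hk => ?_, ?_, fun f v => ?_, ?_, fun y hy => ?_, fun y hy => ?_⟩
    · refine List.nodup_append.2 ⟨h2, by simp, fun x hx y hy => ?_⟩
      have := h4 x hx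
      rw [List.mem_singleton.1 hy]; omega
    · rcases List.mem_append.1 hk with hk | hk
      · have := h4 k hk; omega
      · rw [List.mem_singleton.1 hk]; omega
    · have := lenSum_two ω n; omega
    · rw [E_bind, mkL_append, ← h6]; rfl
    · refine all_bind (h7.mono fun a p hp => ?_)
      obtain ⟨a1, a2, a3, a4, a5, rfl⟩ := hp
      refine ⟨⟨a1.mono (by omega), a2, fun v hv => by have := a3 v hv; omega, a4,
        a5.mono (by omega), rfl⟩, lev.1.mul (a1.mono (by omega)), a2.mul rep, fun v hv => ?_,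
        by simp [Lf.mul, a4, hd], by rw [add_comm]; exact ball.mul a5, rfl⟩
      have := a3 v hv
      have := cyl.pt (by omega) (a.g.1 v) (by rw [tr_len, hv])
      rw [Lf.k_mul]; omega
    · rw [eE]
      have := key y hy
      have := h8 y hy
      simp only [Lf.k_mul, Nat.cast_add, Finset.sum_add_distrib, add_sub_cancel_left]
      rw [pow_succ]; linarith
    · rw [eE]
      have a1 := mul_le_mul_of_nonneg_left (key y hy) (show (0 : ℝ) ≤ 4 * l + 2 by positivity)
      have a2 := h9 y hy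
      rw [← E_mul] at a1
      have a3 : E t (fun a => ∑ v ∈ LV (P + 1 - m), ((a.mul h).k (y ++ v) : ℝ) ^ 2 -
          ∑ v ∈ LV (P + 1 - m), (a.k (y ++ v) : ℝ) ^ 2) ≤ E t (fun a => (4 * l + 2 : ℝ) *
          ∑ v ∈ LV (P + 1 - m), (h.k (a.g.1 (y ++ v)) : ℝ)) := by
        refine E_mono_all (h7.mono fun a p hp => ?_)
        rw [← Finset.sum_sub_distrib, Finset.mul_sum]
        refine Finset.sum_le_sum fun v hv => ?_
        have hl : (y ++ v).length = P + 1 := by rw [List.length_append, mem_LV.1 hv]; omega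
        have b1 : (a.k (y ++ v) : ℝ) ≤ 2 * l := by exact_mod_cast hp.2.2.1 _ hl
        have b2 : (h.k (a.g.1 (y ++ v)) : ℝ) ≤ 2 := by
          exact_mod_cast cyl.pt (by omega) _ (by rw [tr_len, hl])
        have b3 : (0 : ℝ) ≤ h.k (a.g.1 (y ++ v)) := by positivity
        rw [Lf.k_mul]; push_cast
        nlinarith
      push_cast
      rw [pow_succ]; linarith

theorem good_levels {z : Fin 3} {w : ℕ} (m : ℕ)
    (hwin : ∀ t, ∃ t', t ≤ t' ∧ t' < t + w ∧ col (ω t') z = true) (G : ℕ) :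
    ∃ ns : List ℕ, ns.length = G ∧ ns.Nodup ∧
      ∀ n ∈ ns, m < n ∧ n ≤ m + w * G ∧ col (ω (n - 1)) z = true := by
  induction G with
  | zero => exact ⟨[], rfl, List.nodup_nil, by simp⟩
  | succ G ih =>
    obtain ⟨ns, h1, h2, h3⟩ := ih
    obtain ⟨t, t1, t2, t3⟩ := hwin (m + w * G)
    rw [mul_add, mul_one]
    refine ⟨(t + 1) :: ns, by simp [h1], List.nodup_cons.2 ⟨fun hm => ?_, h2⟩, fun n hn => ?_⟩
    · have := h3 _ hm; omega
    · rcases List.mem_cons.1 hn with rfl | hn
      · exact ⟨by omega, by omega, by simpa using t3⟩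
      · have := h3 n hn
        exact ⟨this.1, by omega, this.2.2⟩

theorem double {z : Fin 3} {b m G P w N : ℕ} {U : Vx → Prop} {κ : ℝ} (hz : inact (ω P) = z)
    (hwin : ∀ t, ∃ t', t ≤ t' ∧ t' < t + w ∧ col (ω t') z = true)
    (hb : b ≤ m) (hm : m ≤ P + 1) (hG : G = 0 ∨ (m + w * G ≤ P ∧ m + w * G < N))
    (hκ : (m = b ∧ κ = 0) ∨ (m ≤ N ∧ κ = 1)) {t : RT Lf} {n c : ℕ} {μ σ ι δ : ℝ}
    (h : Inv ω z b (P + 1) U t n c μ σ ι δ) :
    ∃ t', Inv ω z b (P + 1) U t' (2 * n) (2 * c + 2 * lenSum ω N)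
      (2 * μ + 2 * κ * 2 ^ (m - b))
      (σ + ((1 / 2) ^ G * (2 * κ) + (1 / 2) ^ (G + (m - b)) * (2 * μ)))
      (2 * ι + 12 * κ * 2 ^ m + 16 * (κ * 2 ^ m) * σ +
        8 * (2 ^ b * μ) * ((1 / 2) ^ G * (2 * κ) + (1 / 2) ^ (G + (m - b)) * (2 * μ)))
      (2 * δ) := by
  obtain ⟨gs, g1, g2, g3⟩ := good_levels m hwin G
  have g4 : ∀ n ∈ gs, n ≤ P ∧ n < N := fun n hn => by
    have := g3 n hn
    rcases hG with hG | hG
    · rw [hG] at g1; rw [List.length_eq_zero_iff.1 g1] at hn; simp at hn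
    · omega
  obtain ⟨tB, LB, bs, cB, lB, b2, b3, b4, b5, b6, b7, b8, b9⟩ := bad_cube hz hm (m - b) (by omega)
  rw [show m - (m - b) = b by omega] at b4 b5 b7
  have hM : b ≤ P + 1 := by omega
  have k1 : ∀ y : Vx, y.length = m →
      E tB (fun a => ∑ v ∈ LV (P + 1 - m), (a.k (y ++ v) : ℝ)) ≤ 2 * κ := fun y hy => by
    refine (b8 y hy).trans ?_
    rcases hκ with ⟨h1, h2⟩ | ⟨_, h2⟩
    · simp [h1, h2]
    · have : (0 : ℝ) ≤ (1 / 2) ^ (m - b) := by positivity
      rw [h2]; linarith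
  have k2 : ∀ y : Vx, y.length = m →
      E tB (fun a => ∑ v ∈ LV (P + 1 - m), (a.k (y ++ v) : ℝ) ^ 2) ≤ 12 * κ := fun y hy => by
    refine (b9 y hy).trans ?_
    rcases hκ with ⟨h1, h2⟩ | ⟨_, h2⟩
    · simp [h1, h2]
    · have : (0 : ℝ) ≤ (8 * (m - b : ℕ) + 12) * (1 / 2) ^ (m - b) := by positivity
      rw [h2]; linarith
  have k3 : ∀ u : Vx, u.length = b →
      E tB (fun a => ∑ v ∈ LV (P + 1 - b), (a.k (u ++ v) : ℝ)) ≤ 2 * κ * 2 ^ (m - b) := by
    intro u hu
    rw [show P + 1 - b = (m - b) + (P + 1 - m) by omega]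
    simp only [sum_LV_add]
    rw [E_sum]
    refine (Finset.sum_le_sum (g := fun _ => 2 * κ) fun y hy => ?_).trans ?_
    · simpa only [List.append_assoc] using k1 (u ++ y) (by simp [mem_LV.1 hy]; omega)
    · simp [card_LV, mul_comm]
  have iB : Inv ω z b (P + 1) U tB 0 (lenSum ω N) (2 * κ * 2 ^ (m - b)) (2 * κ)
      (12 * κ * 2 ^ m) 0 := by
    refine ⟨b7.mono fun a p hp => ?_, fun u hu => le_trans (E_mono _ fun a => ?_) (k3 u hu),
      fun u hu => le_trans (E_mono _ fun a => ?_) (k3 u hu), fun v hv => ?_, ?_,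
      E_le_all (b7.mono fun a p hp => by simp [hp.2.2.2.1])⟩
    · obtain ⟨a1, a2, _, _, a5, rfl⟩ := hp
      refine ⟨⟨a1, a2, Live.nil _ _ _ _⟩, rfl, a5.mono ?_⟩
      rcases hκ with ⟨h1, _⟩ | ⟨h1, _⟩
      · rw [h1] at b5; omega
      · have := lenSum_mono ω h1; omega
    · exact Finset.sum_le_sum fun v _ => by exact_mod_cast Nat.le_add_right _ _
    · exact Finset.sum_le_sum fun v _ => by exact_mod_cast Nat.le_add_left _ _
    · refine le_trans (E_mono _ fun a => ?_) (k1 (v.take m) (by simp; omega))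
      have := Finset.single_le_sum (s := LV (P + 1 - m))
        (f := fun y => (a.k (v.take m ++ y) : ℝ)) (fun _ _ => by positivity) (a := v.drop m)
        (by rw [mem_LV]; simp; omega)
      simpa using this
    · refine le_trans (E_mono _ (g := fun a => ∑ v ∈ LV (P + 1), (a.k v : ℝ) ^ 2) fun a => ?_) ?_
      · refine Finset.sum_le_sum fun v _ => ?_
        unfold Qn; split_ifs
        · push_cast; exact le_rfl
        · push_cast; positivity
      · conv_lhs => rw [show P + 1 = m + (P + 1 - m) by omega]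
        simp only [sum_LV_add]
        rw [E_sum]
        refine (Finset.sum_le_sum fun y hy => k2 y (mem_LV.1 hy)).trans ?_
        simp [card_LV, mul_comm]
  have okG := jumps_ok (b := b) (r := 0) hz le_rfl gs (fun _ => z) (fun n hn => by
    have := g3 n hn; have := g4 n hn
    exact ⟨by omega, by omega, by omega, Or.inr (g3 n hn).2.2, by simp⟩)
  have iG := inv_cube U hM le_rfl _ okG
    (jumps_cost z gs (fun _ => z) g2 (N := N) (fun n hn => (g4 n hn).2))
  have lG := forall2_jump z gs (fun _ => z) (fun n hn => Or.inr (g3 n hn).2.2)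
  simp only [List.length_map, zero_mul, Nat.cast_zero, mul_zero] at iG
  generalize gs.map (fun n => jumpL ω z n z) = LG at iG lG
  have i1 := iB.prod' hM h
  have i2 := iG.prod hM i1
    (τ := (1 / 2) ^ G * (2 * κ) + (1 / 2) ^ (G + (m - b)) * (2 * μ)) (fun v hv => by
      simp only [E_prod, Lf.k_mul, Nat.cast_add, E_add, E_const]
      refine add_le_add ?_ ?_
      · rw [E_cubeT LG (fun y => E tB (fun a => (a.k y : ℝ))) v]
        refine (cube_le (b := m) (t := P + 1 - m) lG g2
          (fun n hn => by have := g3 n hn; have := g4 n hn; omega) _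
          (fun y => E_nonneg _ fun a => by positivity) v (by omega)).trans ?_
        rw [g1, ← E_sum]
        exact mul_le_mul_of_nonneg_left (k1 _ (by simp; omega)) (by positivity)
      · have e : ∀ y, E tB (fun a => E t (fun x => (x.k (a.g.1 y) : ℝ))) =
            mkL LB (fun y => E t (fun x => (x.k y : ℝ))) y :=
          fun y => b6 (fun y => E t (fun x => (x.k y : ℝ))) y
        simp only [e]
        rw [E_cubeT LG (mkL LB (fun y => E t (fun x => (x.k y : ℝ)))) v, ← mkL_append]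
        refine (cube_le (b := b) (t := P + 1 - b) (List.rel_append lG lB) ?_ ?_ _
          (fun y => E_nonneg _ fun a => by positivity) v (by omega)).trans ?_
        · refine List.nodup_append.2 ⟨g2, b2, fun x hx y hy => ?_⟩
          have := g3 x hx; have := b4 y hy; omega
        · intro n hn
          rcases List.mem_append.1 hn with hn | hn
          · have := g3 n hn; have := g4 n hn; omega
          · have := b4 n hn; omega
        · rw [List.length_append, g1, b3]
          exact mul_le_mul_of_nonneg_left (h.cyl _ (by simp; omega)) (by positivity))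
  have i3 := h.prod' hM i2
  have e : (2 : ℝ) ^ m = 2 ^ b * 2 ^ (m - b) := by rw [← pow_add]; congr 1; omega
  rw [show 2 * n = n + (0 + (0 + n)) by ring]
  refine ⟨_, i3.mono (by omega) ?_ ?_ ?_ ?_⟩ <;> apply le_of_eq
  · ring
  · ring
  · rw [e]; ring
  · ring

end Pool.Agent.MP_fbbd83_al.St
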