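import Pool.Agent.MP_fbbd83_al.Pl.Phase

/-! Sequences in which all three symbols occur near every symbol other than `j`. -/

namespace Pool.Agent.MP_fbbd83_al.St

open Pl

def Near (j : Fin 3) (r : ℕ) (ω : ℕ → Fin 3) : Prop :=
  ∀ n, ω n ≠ j → ∀ i, ∃ k, n ≤ k + r ∧ k ≤ n + r ∧ ω k = i

variable {ω : ℕ → Fin 3} {j : Fin 3} {r : ℕ}

theorem inact_ne {i i' : Fin 3} (h : i ≠ i') : inact i ≠ inact i' := by
  revert i i'; decide

theorem Near.win (h : Near j r ω) {f : Fin 3} (hf : f ≠ inact j) (t : ℕ) :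
    ∃ t', t ≤ t' ∧ t' < t + (2 * r + 1) ∧ col (ω t') f = true := by
  by_cases hc : ω (t + r) = j
  · exact ⟨t + r, by omega, by omega, by rw [col_iff, hc]; exact hf⟩
  · obtain ⟨k, h1, h2, h3⟩ := h _ hc j
    exact ⟨k, by omega, by omega, by rw [col_iff, h3]; exact hf⟩

theorem lenSum_le_two (ω : ℕ → Fin 3) (k : ℕ) {s t : Fin 3} (h : s ≠ t) :
    lenSum ω k ≤ 2 * (ell ω k s + ell ω k t) := by
  have h0 := ell_tri ω k 0; have h1 := ell_tri ω k 1; have h2 := ell_tri ω k 2
  unfold lenSum at *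
  rcases fin3_cases s with rfl | rfl | rfl <;> rcases fin3_cases t with rfl | rfl | rfl <;>
    first | exact absurd rfl h | omega

theorem Near.ratio (h : Near j r ω) (k : ℕ) (s : Fin 3) :
    lenSum ω k ≤ (4 * r + 4) * ell ω k s := by
  obtain ⟨t, t1, t2⟩ := (by decide : ∀ s j : Fin 3, ∃ t, t ≠ s ∧ t ≠ inact j) s j
  obtain ⟨i, rfl⟩ := exists_inact s
  obtain ⟨k0, a1, a2, a3⟩ : ∃ k0, k0 ≤ k ∧ ell ω k0 t ≤ ell ω k0 (inact i) ∧
      ∀ m, k0 ≤ m → m < k → ω m ≠ i := by
    induction k with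
    | zero => exact ⟨0, le_rfl, le_rfl, fun m _ h => by omega⟩
    | succ k ih =>
      by_cases hk : ω k = i
      · refine ⟨k + 1, le_rfl, ?_, fun m _ _ => by omega⟩
        rw [ell_succ, ell_succ, hk, if_pos (by rwa [col_iff]), not_col rfl, if_neg (by simp)]
        exact ell_tri ω k t
      · obtain ⟨k0, a1, a2, a3⟩ := ih
        refine ⟨k0, by omega, a2, fun m h1 h2 => ?_⟩
        by_cases hm : m = k
        · rwa [hm]
        · exact a3 m h1 (by omega)
  have key : ∀ d, k0 + d ≤ k →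
      ell ω (k0 + d) t ≤ (1 + min d r + (k0 + d + r - k)) * ell ω (k0 + d) (inact i) := by
    intro d
    induction d with
    | zero => intro _; exact a2.trans (Nat.le_mul_of_pos_left _ (by omega))
    | succ d ih =>
      intro hd
      have ih := ih (by omega)
      have e1 : ell ω (k0 + d + 1) (inact i) = 2 * ell ω (k0 + d) (inact i) := by
        rw [ell_succ, if_pos (by rw [col_iff]; exact inact_ne (a3 _ (by omega) (by omega)).symm)]
      rw [← add_assoc k0, e1, ell_succ]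
      split_ifs with hc
      · calc _ ≤ 2 * ((1 + min d r + (k0 + d + r - k)) * ell ω (k0 + d) (inact i)) := by omega
          _ = (1 + min d r + (k0 + d + r - k)) * (2 * ell ω (k0 + d) (inact i)) := by ring
          _ ≤ _ := Nat.mul_le_mul_right _ (by omega)
      · rw [col_iff, not_not] at hc
        obtain ⟨k', b1, b2, b3⟩ := h (k0 + d) (fun e => t2 (by rw [hc, e])) i
        have b4 : k' < k0 ∨ k ≤ k' := by
          by_contra hcon
          exact a3 k' (by omega) (by omega) b3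
        have b5 := lenSum_le_two ω (k0 + d) t1
        calc _ ≤ 2 * ((1 + min d r + (k0 + d + r - k)) * ell ω (k0 + d) (inact i) +
              ell ω (k0 + d) (inact i)) := by omega
          _ = (1 + min d r + (k0 + d + r - k) + 1) * (2 * ell ω (k0 + d) (inact i)) := by ring
          _ ≤ _ := Nat.mul_le_mul_right _ (by omega)
  obtain ⟨d, rfl⟩ := Nat.exists_eq_add_of_le a1
  have b1 := key d le_rfl
  have b2 := lenSum_le_two ω (k0 + d) t1
  have b3 : (1 + min d r + (k0 + d + r - (k0 + d))) * ell ω (k0 + d) (inact i) ≤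
      (1 + 2 * r) * ell ω (k0 + d) (inact i) := Nat.mul_le_mul_right _ (by omega)
  nlinarith

/-- normalised lengths -/
noncomputable def en (ω : ℕ → Fin 3) (s : Fin 3) (t : ℕ) : ℝ := ell ω t s / 2 ^ t

noncomputable def gn (ω : ℕ → Fin 3) (t : ℕ) : ℝ := lenSum ω t / 2 ^ t

theorem en_mono (s : Fin 3) {t t' : ℕ} (h : t ≤ t') : en ω s t ≤ en ω s t' := by
  obtain ⟨d, rfl⟩ := Nat.exists_eq_add_of_le h
  have : ((2 ^ d * ell ω t s : ℕ) : ℝ) ≤ ell ω (t + d) s := by exact_mod_cast ell_pow ω s t d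
  unfold en
  rw [div_le_div_iff₀ (by positivity) (by positivity), pow_add]
  push_cast at this
  nlinarith [show (0 : ℝ) < 2 ^ t by positivity]

theorem gn_eq (t : ℕ) {x y z : Fin 3} (h1 : x ≠ y) (h2 : x ≠ z) (h3 : y ≠ z) :
    gn ω t = en ω x t + en ω y t + en ω z t := by
  have : lenSum ω t = ell ω t x + ell ω t y + ell ω t z := by
    rw [lenSum_eq ω t z]
    have : (x = z + 1 ∧ y = z + 2) ∨ (x = z + 2 ∧ y = z + 1) := by revert x y z; decide
    rcases this with ⟨rfl, rfl⟩ | ⟨rfl, rfl⟩ <;> ring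
  unfold gn en
  rw [this]; push_cast; ring

theorem gn_mono {t t' : ℕ} (h : t ≤ t') : gn ω t ≤ gn ω t' := by
  have e := fun t => gn_eq (ω := ω) t (x := 0) (y := 1) (z := 2) (by decide) (by decide) (by decide)
  rw [e, e]
  exact add_le_add (add_le_add (en_mono _ h) (en_mono _ h)) (en_mono _ h)

theorem gn_pos (t : ℕ) : 3 ≤ gn ω t := by
  have := gn_mono (ω := ω) (Nat.zero_le t)
  simpa [gn, lenSum_zero] using this

theorem en_hit {s : Fin 3} {t : ℕ} (h : inact (ω t) = s) : en ω s (t + 1) = gn ω t / 2 := by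
  unfold en gn
  rw [ell_succ, not_col h, if_neg (by simp), pow_succ, div_div]

theorem en_act {s : Fin 3} {t : ℕ} (h : inact (ω t) ≠ s) : en ω s (t + 1) = en ω s t := by
  unfold en
  rw [ell_succ, if_pos (by rw [col_iff]; exact h.symm), pow_succ]
  push_cast; field_simp

theorem gn_slack {t t' : ℕ} (h : ∀ i, ∃ m, t ≤ m ∧ m < t' ∧ ω m = i) :
    7 / 6 * gn ω t ≤ gn ω t' := by
  classical
  obtain ⟨s, hs⟩ : ∃ s, 3 * en ω s t ≤ gn ω t := by
    rw [gn_eq t (x := 0) (y := 1) (z := 2) (by decide) (by decide) (by decide)]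
    by_contra hc
    push Not at hc
    have := hc 0; have := hc 1; have := hc 2; linarith
  obtain ⟨i, rfl⟩ := exists_inact s
  have hex : ∃ d, ω (t + d) = i := by
    obtain ⟨m, h1, _, h3⟩ := h i
    exact ⟨m - t, by rwa [show t + (m - t) = m by omega]⟩
  have h1 : t + Nat.find hex < t' := by
    obtain ⟨m, h1, h2, h3⟩ := h i
    have := Nat.find_min' hex (m := m - t) (by rwa [show t + (m - t) = m by omega])
    omega
  have h2 : ∀ d, d ≤ Nat.find hex → en ω (inact i) (t + d) = en ω (inact i) t := by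
    intro d
    induction d with
    | zero => intro _; rfl
    | succ d ih =>
      intro hd
      rw [← add_assoc, en_act (inact_ne (Nat.find_min hex (by omega))), ih (by omega)]
  have h3 := h2 _ le_rfl
  have h4 := Nat.find_spec hex
  have h5 : t ≤ t + Nat.find hex := by omega
  generalize t + Nat.find hex = m at *
  have f : ∀ z : Fin 3, z + 1 ≠ z + 2 ∧ z + 1 ≠ z ∧ z + 2 ≠ z := by decide
  obtain ⟨f1, f2, f3⟩ := f (inact i)
  have a1 := gn_eq (ω := ω) m f1 f2 f3
  have a2 := gn_eq (ω := ω) (m + 1) f1 f2 f3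
  rw [en_act (by rw [h4]; exact f2.symm), en_act (by rw [h4]; exact f3.symm),
    en_hit (by rw [h4])] at a2
  have a3 := gn_mono (ω := ω) h5
  have a4 := gn_mono (ω := ω) (show m + 1 ≤ t' by omega)
  linarith

noncomputable def ps (ω : ℕ → Fin 3) (z : Fin 3) (t : ℕ) : ℝ :=
  2 * (en ω (z + 1) t + en ω (z + 2) t) + min (en ω (z + 1) t) (en ω (z + 2) t)

theorem en_nonneg (s : Fin 3) (t : ℕ) : 0 ≤ en ω s t := by unfold en; positivity

theorem ps_eq (t : ℕ) {x y z : Fin 3} (h1 : x ≠ y) (h2 : x ≠ z) (h3 : y ≠ z) :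
    ps ω z t = 2 * (en ω x t + en ω y t) + min (en ω x t) (en ω y t) := by
  have : (x = z + 1 ∧ y = z + 2) ∨ (x = z + 2 ∧ y = z + 1) := by revert x y z; decide
  unfold ps
  rcases this with ⟨rfl, rfl⟩ | ⟨rfl, rfl⟩
  · rfl
  · rw [min_comm]; ring

theorem ps_bounds (z : Fin 3) (t : ℕ) : gn ω t ≤ ps ω z t ∧ ps ω z t ≤ 3 * gn ω t := by
  have f : ∀ z : Fin 3, z + 1 ≠ z + 2 ∧ z + 1 ≠ z ∧ z + 2 ≠ z := by decide
  have a1 := gn_eq (ω := ω) t (f z).1 (f z).2.1 (f z).2.2
  have a2 : 2 * en ω z t ≤ gn ω t := by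
    unfold en gn
    rw [← mul_div_assoc]
    exact div_le_div_of_nonneg_right (by exact_mod_cast ell_tri ω t z) (by positivity)
  have a3 := en_nonneg (ω := ω) z t
  have a4 := en_nonneg (ω := ω) (z + 1) t
  have a5 := en_nonneg (ω := ω) (z + 2) t
  have a6 := le_min a4 a5
  have a7 := min_le_left (en ω (z + 1) t) (en ω (z + 2) t)
  unfold ps
  constructor <;> linarith

theorem ps_grow {x y z : Fin 3} (h1 : x ≠ y) (h2 : x ≠ z) (h3 : y ≠ z) {P t1 t2 P' : ℕ}
    (hz : Run ω z P) (a1 : P + 4 ≤ t1) (a2 : t1 < t2) (a3 : t2 < P') (hx : inact (ω t1) = x)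
    (hy : inact (ω t2) = y) : 17 / 8 * ps ω z P ≤ ps ω z P' := by
  rw [ps_eq P h1 h2 h3, ps_eq P' h1 h2 h3]
  have b0 : 15 / 16 * (en ω x P + en ω y P) ≤ en ω z (P + 4) := by
    have : (15 : ℝ) * (ell ω P x + ell ω P y) ≤ ell ω (P + 4) z := by
      exact_mod_cast ell_run h1 h2 h3 hz
    unfold en
    rw [← add_div, ← mul_div_assoc, div_le_div_iff₀ (by positivity) (by positivity), pow_add]
    nlinarith [show (0 : ℝ) < 2 ^ P by positivity]
  have b1 := en_hit hx
  have b2 := en_hit hy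
  rw [gn_eq _ h1 h2 h3] at b1 b2
  have c1 := en_mono (ω := ω) x (show P ≤ t1 by omega)
  have c2 := en_mono (ω := ω) y (show P ≤ t1 by omega)
  have c3 := en_mono (ω := ω) z a1
  have c4 := en_mono (ω := ω) x (show t1 + 1 ≤ t2 by omega)
  have c5 := en_mono (ω := ω) y (show P ≤ t2 by omega)
  have c6 := en_mono (ω := ω) z (show P + 4 ≤ t2 by omega)
  have c7 := en_mono (ω := ω) x (show t1 + 1 ≤ P' by omega)
  have c8 := en_mono (ω := ω) y (show t2 + 1 ≤ P' by omega)
  have d1 := min_le_left (en ω x P) (en ω y P)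
  have d2 := min_le_right (en ω x P) (en ω y P)
  have d3 := en_nonneg (ω := ω) x P
  have d4 := en_nonneg (ω := ω) y P
  rcases min_choice (en ω x P') (en ω y P') with h | h <;> rw [h] <;> linarith

/-- the decomposition into blocks `j … j i` with `i ≠ j` -/
structure Seg (ω : ℕ → Fin 3) (j : Fin 3) (s : ℕ → ℕ) : Prop where
  zero : s 0 = 0
  lt : ∀ k, s k < s (k + 1)
  last : ∀ k, ω (s (k + 1) - 1) ≠ j
  run : ∀ k t, s k ≤ t → t + 1 < s (k + 1) → ω t = j

theorem exists_seg (h : ∀ n, ∃ m, n ≤ m ∧ ω m ≠ j) : ∃ s, Seg ω j s := by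
  classical
  refine ⟨fun k => Nat.rec 0 (fun _ n => Nat.find (h n) + 1) k, rfl, fun k => ?_, fun k => ?_,
    fun k t h1 h2 => ?_⟩
  · exact Nat.lt_succ_of_le (Nat.find_spec (h _)).1
  · exact (Nat.find_spec (h _)).2
  · by_contra hc
    exact Nat.find_min (h _) (Nat.lt_of_succ_lt_succ h2) ⟨h1, hc⟩

variable {s : ℕ → ℕ}

theorem Seg.add (h : Seg ω j s) (k d : ℕ) : s k + d ≤ s (k + d) := by
  induction d with
  | zero => exact le_rfl
  | succ d ih => have := h.lt (k + d); rw [← add_assoc k]; omega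

theorem Seg.mono (h : Seg ω j s) {k k' : ℕ} (hk : k ≤ k') : s k ≤ s k' := by
  have := h.add k (k' - k)
  rw [show k + (k' - k) = k' by omega] at this
  omega

theorem Seg.slack (h : Seg ω j s) (hN : Near j r ω) (k m : ℕ) :
    (7 / 6) ^ m * gn ω (s k) ≤ gn ω (s (k + (2 * r + 1) * m)) := by
  induction m with
  | zero => simp
  | succ m ih =>
    rw [show k + (2 * r + 1) * (m + 1) = k + (2 * r + 1) * m + r + 1 + r by ring]
    generalize k + (2 * r + 1) * m = k' at *
    have a1 := h.add k' (r + 1)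
    have a2 := h.add (k' + r + 1) r
    rw [← add_assoc k'] at a1
    have := gn_slack (ω := ω) (t := s k') (t' := s (k' + r + 1 + r)) fun i => by
      obtain ⟨m, b1, b2, b3⟩ := hN _ (h.last (k' + r)) i
      exact ⟨m, by omega, by omega, b3⟩
    rw [pow_succ']
    linarith

/-- the block number `k` starts with a long run that begins well before `T` -/
def Long (s : ℕ → ℕ) (R T k : ℕ) : Prop := s k + R < s (k + 1) ∧ s k + R ≤ T

variable {R T K : ℕ}

theorem Seg.gap' (h : Seg ω j s) (hN : Near j r ω) (hr : r ≤ R) {k k' : ℕ}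
    (hk : k < k') (h1 : Long s R T k) (h2 : Long s R T k') :
    ∃ m, s (k + 1) - 1 < m ∧ m < s k' ∧ ω m ≠ j ∧ ω (s (k + 1) - 1) ≠ ω m := by
  obtain ⟨h1, -⟩ := h1
  obtain ⟨h2, -⟩ := h2
  obtain ⟨i, i1, i2⟩ := (by decide : ∀ a b : Fin 3, ∃ i, i ≠ a ∧ i ≠ b) j (ω (s (k + 1) - 1))
  obtain ⟨m, b1, b2, rfl⟩ := hN _ (h.last k) i
  have a2 := h.mono (show k + 1 ≤ k' from hk)
  refine ⟨m, ?_, ?_, i1, i2.symm⟩
  · by_contra hc
    by_cases e : m = s (k + 1) - 1
    · exact i2 (by rw [← e])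
    · exact i1 (h.run k m (by omega) (by omega))
  · by_contra hc
    exact i1 (h.run k' m (by omega) (by omega))

theorem Seg.gap (h : Seg ω j s) (hN : Near j r ω) (hr : r ≤ R) (h4 : 4 ≤ R) {k k' : ℕ}
    (hk : k < k') (h1 : Long s R T k) (h2 : Long s R T k') :
    17 / 8 * ps ω (inact j) (s k) ≤ ps ω (inact j) (s k') := by
  obtain ⟨m, c1, c2, c3, c4⟩ := h.gap' hN hr hk h1 h2
  obtain ⟨h1, -⟩ := h1
  exact ps_grow (inact_ne c4) (inact_ne (h.last k)) (inact_ne c3)
    (fun t ht => by rw [h.run k _ (by omega) (by omega)]) (by omega) c1 c2 rfl rfl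

open Classical in
/-- the number of long blocks among the blocks `k, …, K` -/
noncomputable def cv (s : ℕ → ℕ) (R T K k : ℕ) : ℕ :=
  ∑ i ∈ Finset.Ico k (K + 1), if Long s R T i then 1 else 0

theorem cv_end : cv s R T K (K + 1) = 0 := by simp [cv]

theorem cv_long {k : ℕ} (hk : k ≤ K) (h : Long s R T k) :
    cv s R T K k = cv s R T K (k + 1) + 1 := by
  unfold cv
  rw [Finset.sum_eq_sum_Ico_succ_bot (by omega), if_pos h, add_comm]

theorem cv_not {k : ℕ} (hk : k ≤ K) (h : ¬ Long s R T k) : cv s R T K k = cv s R T K (k + 1) := by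
  unfold cv
  rw [Finset.sum_eq_sum_Ico_succ_bot (by omega), if_neg h, zero_add]

theorem Seg.conv (h : Seg ω j s) (hN : Near j r ω) (hr : r ≤ R) (h4 : 4 ≤ R) (u : ℕ) :
    ∀ k, k + u = K + 1 →
      (∀ k0 < k, Long s R T k0 → (17 / 8) ^ cv s R T K k * ps ω (inact j) (s k0) ≤ 3 * gn ω T) ∧
      ∀ t ≤ s k, t ≤ T → (17 / 8) ^ cv s R T K k * gn ω t ≤ 7 * gn ω T := by
  have g0 := gn_pos (ω := ω) T
  induction u with
  | zero =>
    intro k hk
    rw [show k = K + 1 by omega, cv_end, pow_zero]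
    refine ⟨fun k0 _ hl => ?_, fun t _ ht => ?_⟩
    · have := (ps_bounds (ω := ω) (inact j) (s k0)).2
      have := gn_mono (ω := ω) (show s k0 ≤ T by have := hl.2; omega)
      linarith
    · have := gn_mono (ω := ω) ht
      linarith
  | succ u ih =>
    intro k hk
    obtain ⟨i1, i2⟩ := ih (k + 1) (by omega)
    by_cases hl : Long s R T k
    · rw [cv_long (by omega) hl, pow_succ]
      have a1 := i1 k (by omega) hl
      have p : (0 : ℝ) ≤ (17 / 8) ^ cv s R T K (k + 1) := by positivity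
      refine ⟨fun k0 h0 hl0 => ?_, fun t ht _ => ?_⟩
      · have := mul_le_mul_of_nonneg_left (h.gap hN hr h4 h0 hl0 hl) p
        linarith
      · have := mul_le_mul_of_nonneg_left
          ((gn_mono ht).trans (ps_bounds (ω := ω) (inact j) (s k)).1) p
        linarith
    · rw [cv_not (by omega) hl]
      exact ⟨fun k0 h0 => i1 k0 (by omega), fun t ht => i2 t (ht.trans (h.lt k).le)⟩

theorem Seg.budget (h : Seg ω j s) (hN : Near j r ω) (hr : r ≤ R) (h4 : 4 ≤ R) (hK : s K ≤ T)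
    (c : ℕ) {k : ℕ} (hk : k ≤ K) :
    2 ^ (cv s R T K k + c * ((K - k) / ((2 * r + 1) * (65 * c)))) * gn ω (s k) ≤ 7 * gn ω T := by
  have a1 := (h.conv hN hr h4 (K := K) (T := T) (K + 1 - k) k (by omega)).2 _ le_rfl
    ((h.mono hk).trans hK)
  generalize hq : (K - k) / ((2 * r + 1) * (65 * c)) = q
  have a2 := h.slack hN k (65 * c * q)
  have a3 : k + (2 * r + 1) * (65 * c * q) ≤ K := by
    have := Nat.mul_div_le (K - k) ((2 * r + 1) * (65 * c))
    rw [hq, mul_assoc] at this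
    omega
  replace a2 := a2.trans (gn_mono ((h.mono a3).trans hK))
  have g0 := gn_pos (ω := ω) T
  have g1 := gn_pos (ω := ω) (s k)
  generalize cv s R T K k = v at *
  generalize gn ω T = G at *
  generalize gn ω (s k) = g at *
  have b1 : (2 : ℝ) ^ (13 * v) ≤ ((17 / 8) ^ v) ^ 12 := by
    rw [← pow_mul, mul_comm v, pow_mul, pow_mul]
    exact pow_le_pow_left₀ (by positivity) (by norm_num) _
  have b2 : (2 : ℝ) ^ (13 * (c * q)) ≤ (7 / 6) ^ (65 * c * q) := by
    rw [show 65 * c * q = 5 * (13 * (c * q)) by ring, pow_mul (7 / 6 : ℝ)]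
    exact pow_le_pow_left₀ (by positivity) (by norm_num) _
  refine le_of_pow_le_pow_left₀ (n := 13) (by norm_num) (by positivity) ?_
  calc _ = (2 ^ (13 * v) * g ^ 12) * (2 ^ (13 * (c * q)) * g) := by ring
    _ ≤ (((17 / 8) ^ v) ^ 12 * g ^ 12) * ((7 / 6) ^ (65 * c * q) * g) := by gcongr
    _ ≤ (7 * G) ^ 12 * (7 * G) := by
      rw [← mul_pow]
      exact mul_le_mul (pow_le_pow_left₀ (by positivity) a1 _) (by linarith) (by positivity)
        (by positivity)
    _ = _ := by ring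

theorem half_pow_le {D : ℕ} (hD : 0 < D) (u : ℕ) :
    (1 / 2 : ℝ) ^ (u / D) ≤ 2 * (1 - 1 / (2 * D)) ^ u := by
  have d1 : (1 : ℝ) ≤ D := by exact_mod_cast hD
  have x0 : (1 : ℝ) / (2 * D) ≤ 1 := by rw [div_le_one (by positivity)]; linarith
  have x1 : (0 : ℝ) ≤ 1 / (2 * D) := by positivity
  have a1 : (1 / 2 : ℝ) ≤ (1 - 1 / (2 * D)) ^ D := by
    have := one_add_mul_le_pow (a := -(1 / (2 * D) : ℝ)) (by linarith) D
    rw [← sub_eq_add_neg] at this
    refine le_trans (le_of_eq ?_) this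
    field_simp; norm_num
  have a2 : (1 - 1 / (2 * D) : ℝ) ^ (D * (u / D + 1)) ≤ (1 - 1 / (2 * D)) ^ u :=
    pow_le_pow_of_le_one (by linarith) (by linarith) (Nat.lt_mul_div_succ u hD).le
  have a3 := pow_le_pow_left₀ (by norm_num) a1 (u / D + 1)
  rw [← pow_mul, pow_succ] at a3
  linarith

end Pool.Agent.MP_fbbd83_al.St
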