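import Pool.Agent.MP_fbbd83_al.St.Sel
import Pool.Agent.MP_fbbd83_al.Pl.ConvT

/-! Turning visible bits into lamps at the start of a long run. -/

namespace Pool.Agent.MP_fbbd83_al.St

open Pl Pl.RT

variable {ω : ℕ → Fin 3}

theorem conj0 (ω : ℕ → Fin 3) {ε : Equiv.Perm Vx}
    (hs : ∀ s, letP ω (some s) * ε * letP ω (some s) = ε) (w : Word) (h : cntA w = 0) :
    (evP ω w)⁻¹ * ε * evP ω w = ε := by
  induction w with
  | nil => simp [evP]
  | cons x w ih =>
    cases x with
    | none => simp [cntA] at h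
    | some s =>
      have ih := ih h
      simp only [evP, mul_inv_rev, letP_inv]
      calc _ = letP ω (some s) * ((evP ω w)⁻¹ * ε * evP ω w) * letP ω (some s) := by group
        _ = _ := by rw [ih, hs]

theorem conj1 (ω : ℕ → Fin 3) {ε : Equiv.Perm Vx} {f : Fin 3}
    (hs : ∀ s, letP ω (some s) * ε * letP ω (some s) = ε) (w : Word) (h : cntA w = 1)
    (h' : cB f w = 0) : (evP ω w)⁻¹ * ε * evP ω w = letP ω none * ε * letP ω none ∨
      (evP ω w)⁻¹ * ε * evP ω w =
        letP ω (some f) * (letP ω none * ε * letP ω none) * letP ω (some f) := by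
  induction w with
  | nil => simp [cntA] at h
  | cons x w ih =>
    have e : (evP ω (x :: w))⁻¹ * ε * evP ω (x :: w) =
        letP ω x * ((evP ω w)⁻¹ * ε * evP ω w) * letP ω x := by
      simp only [evP, mul_inv_rev, letP_inv]; group
    rw [e]
    cases x with
    | none => left; rw [conj0 ω hs w (by simpa [cntA] using h)]
    | some s =>
      have hs : s = f := by
        by_contra hc; simp [cB, hc] at h'
      subst hs
      rcases ih h (by simpa [cB] using h') with ih | ih <;> rw [ih]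
      · right; rfl
      · left
        calc _ = (letP ω (some s) * letP ω (some s)) * (letP ω none * ε * letP ω none) *
              (letP ω (some s) * letP ω (some s)) := by group
          _ = _ := by rw [letP_sq, one_mul, mul_one]

def Rw (f z : Fin 3) (β : Bool) : Word :=
  (if β then [some f, none] ++ ew f z ++ [none, some f] else [none] ++ ew f z ++ [none]) ++
    (ew f z).reverse

theorem evP_cw2 {f : Fin 3} {M : ℕ} (h1 : inact (ω (M + 1)) = inact (ω M)) (hf : f ≠ inact (ω M))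
    (tw w : Word) (t1 : cntA tw = 0) (t2 : cB f tw = 0) (h3 : cntA w + cB f w ≤ 1) :
    ∃ β, evP (sh M ω) (cw tw w (ew f (inact (ω M)))) =
      if par w then evP (sh M ω) (Rw f (inact (ω M)) β) else 1 := by
  have e1 : ∀ i f s : Fin 3, f ≠ inact i →
      Eq2 i ([some s] ++ ew f (inact i) ++ [some s]) (ew f (inact i)) := by decide
  have hs : ∀ s, letP (sh M ω) (some s) * evP (sh M ω) (ew f (inact (ω M))) *
      letP (sh M ω) (some s) = evP (sh M ω) (ew f (inact (ω M))) := fun s => by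
    have := evP_eq2 h1 (e1 _ f s hf)
    simpa [evP_append, evP, mul_assoc] using this
  have e : evP (sh M ω) (cw tw w (ew f (inact (ω M)))) =
      ((evP (sh M ω) tw)⁻¹ * evP (sh M ω) (ew f (inact (ω M))) * evP (sh M ω) tw)⁻¹ *
      ((evP (sh M ω) (tw ++ w))⁻¹ * evP (sh M ω) (ew f (inact (ω M))) * evP (sh M ω) (tw ++ w)) := by
    simp only [cw, evP_append, evP_reverse]
    group
  rw [e, conj0 _ hs tw t1]
  rcases Nat.eq_zero_or_pos (cntA w) with h | h
  · refine ⟨false, ?_⟩
    rw [par_of_cntA w h, conj0 _ hs _ (by rw [cntA_append]; omega)]; simp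
  · rw [par_of_cntA_one w (by omega)]
    rcases conj1 _ (f := f) hs (tw ++ w) (by rw [cntA_append]; omega)
      (by rw [cB_append]; omega) with h | h <;> rw [h]
    · exact ⟨false, by simp [Rw, evP_append, evP_reverse, evP, mul_assoc]⟩
    · exact ⟨true, by simp [Rw, evP_append, evP_reverse, evP, mul_assoc]⟩

theorem Rw_sec : ∀ (i f : Fin 3) (β δ δ' : Bool), f ≠ inact i →
    red (sec i (red (sec i (Rw f (inact i) β) δ)) δ') = [some (inact i)] ∨
      (δ' = false ∧ red (sec i (red (sec i (Rw f (inact i) β) δ)) δ') =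
        [none, some (inact i), none]) := by
  decide

variable (ω) in
/-- all sections are words in `a` and `z` -/
def GZ (z : Fin 3) (M : ℕ) (g : Tr) : Prop :=
  ∀ u : Vx, u.length = M → ∃ w, SecW ω M g u w ∧ cB z w = 0

theorem short_z {z : Fin 3} {w : Word} (h : Alt w) (h1 : cntA w = 0) (h2 : cB z w = 0) :
    w = [] ∨ w = [some z] := by
  match w, h, h1, h2 with
  | [], _, _, _ => exact Or.inl rfl
  | none :: _, _, h1, _ => simp [cntA] at h1
  | [some s], _, _, h2 =>
    right
    by_contra hc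
    have : s ≠ z := fun e => hc (by rw [e])
    simp [cB, this] at h2
  | some _ :: none :: _, _, h1, _ => simp [cntA] at h1
  | some _ :: some _ :: _, h, _, _ => simp [Alt] at h

theorem GZ.two {z : Fin 3} {M : ℕ} {g : Tr} (h : GZ ω z M g) (h0 : inact (ω M) = z)
    (h1 : inact (ω (M + 1)) = z) (y : Vx) (hy : y.length = M) (δ δ' : Bool) :
    ∃ δ1, g.1 (y ++ [δ] ++ [δ']) = g.1 y ++ [δ1] ++ [δ'] ∧
      (SecW ω (M + 1 + 1) g (y ++ [δ] ++ [δ']) [] ∨
        (δ' = true ∧ SecW ω (M + 1 + 1) g (y ++ [δ] ++ [δ']) [some z])) := by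
  obtain ⟨w, w1, w2⟩ := h y hy
  have s1 := w1.step δ
  have a1 := cntA_red (sec (ω M) w δ)
  have a2 := cntA_sec (ω M) w
  have a3 := cB_red z (sec (ω M) w δ)
  have a4 := cB_sec z (ω M) w
  rw [h0] at a2
  have := short_z (z := z) (alt_red (sec (ω M) w δ)) (by cases δ <;> omega) (by cases δ <;> omega)
  refine ⟨xor δ (actF g.1 y), ?_, ?_⟩
  · rw [tree_step, tree_step, s1.act]
    rcases this with e | e <;> simp [e, par]
  · have s2 := s1.step δ'
    rcases this with e | e <;> rw [e] at s2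
    · exact Or.inl s2
    · cases δ'
      · left; simpa [sec, not_col h1, red] using s2
      · right; exact ⟨rfl, s2⟩

theorem secW_conj {n : ℕ} {g h : Tr} {u : Vx} {w w' : Word} (hg : SecW ω n g u w)
    (hh : SecW ω n h (g.1 u) w') (hf : h.1 (g.1 u) = g.1 u) :
    SecW ω n (g⁻¹ * h * g) u (w ++ w' ++ w.reverse) := by
  rw [mul_assoc]
  exact (hg.mul hh).mul (by rw [tr_mul, hf]; exact hg.inv)

theorem comm_step {f z : Fin 3} (x : Fin 3) {b M : ℕ} {U : Vx → Prop} {e c g : Tr} {X : Lf}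
    (hb : b ≤ M) (h0 : inact (ω M) = z) (h1 : inact (ω (M + 1)) = z) (hf : f ≠ z)
    (he : Prb ω (ew f z) M (fun u => U (u.take b)) e) (hst : St (M + 1 + 1) (cmm e c X.g))
    (hc : Good ω f M c) (hg : GZ ω z M g) (hX : St b X.g) (hR : Rep ω f M X) (v : Vx)
    (hv : v.length = M + 1 + 1) :
    ∃ W : Word, Alt W ∧ W.length ≤ X.k (c.1 (g.1 (v.take M))) + 7 ∧
      (SecW ω (M + 1 + 1) (g⁻¹ * cmm e c X.g * g) v W ∨
        SecW ω (M + 1 + 1) (g⁻¹ * cmm e c X.g * g) v []) ∧
      cB x W ≤ mu b U X (c.1 (g.1 (v.take M))) ∧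
      (U ((c.1 (g.1 (v.take M))).take b) → X.k (c.1 (g.1 (v.take M))) ≤ 1 →
        1 ≤ X.ka (c.1 (g.1 (v.take M))) → v.drop (M + 1) = [true] → W = [some z] ∧
          SecW ω (M + 1 + 1) (g⁻¹ * cmm e c X.g * g) v
            (if actF X.g.1 (c.1 (g.1 (v.take M))) then W else [])) := by
  obtain ⟨y, δ, δ', hy, rfl⟩ : ∃ y δ δ', y.length = M ∧ v = y ++ [δ] ++ [δ'] := by
    obtain ⟨y, δ, v', hy, rfl⟩ := split_at v M (by omega)
    obtain ⟨δ', rfl⟩ := List.length_eq_one_iff.1 (show v'.length = 1 by simp at hv; omega)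
    exact ⟨y, δ, δ', hy, by simp⟩
  have e0 : (y ++ [δ] ++ [δ']).take M = y := by rw [List.append_assoc, List.take_left' hy]
  have e00 : (y ++ [δ] ++ [δ']).drop (M + 1) = [δ'] := List.drop_left' (by simp [hy])
  rw [e0, e00]
  obtain ⟨δ1, g1, g2⟩ := hg.two h0 h1 y hy δ δ'
  have l0 : (g.1 y).length = M := by rw [tr_len, hy]
  have hfix := hst (g.1 (y ++ [δ] ++ [δ'])) (by rw [tr_len, hv])
  obtain ⟨wz, z1, z2⟩ : ∃ wz, SecW ω (M + 1 + 1) g (y ++ [δ] ++ [δ']) wz ∧
      (wz = [] ∨ (δ' = true ∧ wz = [some z])) := by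
    rcases g2 with g2 | ⟨g2, g3⟩
    · exact ⟨_, g2, Or.inl rfl⟩
    · exact ⟨_, g3, Or.inr ⟨g2, rfl⟩⟩
  have cj : ∀ R, SecW ω M (cmm e c X.g) (g.1 y) R →
      SecW ω (M + 1 + 1) (g⁻¹ * cmm e c X.g * g) (y ++ [δ] ++ [δ'])
        (wz ++ red (sec (ω M) (red (sec (ω M) R δ1)) δ') ++ wz.reverse) := fun R hR => by
    have := (hR.step δ1).step δ'
    rw [inact_inj (h1.trans h0.symm), ← g1] at this
    exact secW_conj z1 this hfix
  have cj0 : SecW ω M (cmm e c X.g) (g.1 y) [] →
      SecW ω (M + 1 + 1) (g⁻¹ * cmm e c X.g * g) (y ++ [δ] ++ [δ']) [] := fun h =>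
    (cj [] h).congr fun v => by simp [sec, red, run_append, run_rev, run]
  generalize g.1 y = y0 at *
  obtain ⟨tw, t1, t2, t3⟩ := hc y0 l0
  have l1 : (c.1 y0).length = M := by rw [tr_len, l0]
  have l2 : (X.g.1 (c.1 y0)).length = M := by rw [tr_len, l1]
  obtain ⟨w, w1, w2, w3⟩ := hR _ l1
  have e1 := hX.take (u := c.1 y0) (by omega)
  have he' : ∀ u : Vx, u.length = M → e.1 u = u := fun u hu => (he u hu).1
  by_cases hU : U ((c.1 y0).take b)
  · obtain ⟨s1, -⟩ := cmm_sec l0 he' t1 w1 ((he _ l2).2.1 (show U _ by rwa [e1])) ((he _ l1).2.1 hU)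
    by_cases hk : X.k (c.1 y0) ≤ 1
    · subst h0
      obtain ⟨β, e2⟩ := evP_cw2 h1 hf tw w t2 t3 (by unfold Lf.k at hk; omega)
      have s4 : SecW ω M (cmm e c X.g) y0
          (if actF X.g.1 (c.1 y0) then Rw f (inact (ω M)) β else []) := by
        refine s1.congrP ?_
        rw [e2, w1.act]
        split_ifs <;> rfl
      by_cases ha : 1 ≤ X.ka (c.1 y0)
      · have r := Rw_sec (ω M) f β δ1 δ' hf
        have s5 : SecW ω (M + 1 + 1) (g⁻¹ * cmm e c X.g * g) (y ++ [δ] ++ [δ'])
            (if actF X.g.1 (c.1 y0) then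
              red (sec (ω M) (red (sec (ω M) (Rw f (inact (ω M)) β) δ1)) δ') else []) := by
          split_ifs at s4 ⊢
          · refine (cj _ s4).congr fun v => ?_
            rcases z2 with rfl | ⟨rfl, rfl⟩
            · simp
            · rcases r with r | ⟨r, -⟩
              · rw [r]; simp [run, letFun_invol]
              · simp at r
          · exact cj0 s4
        refine ⟨_, alt_red _, ?_, ?_, ?_, fun _ _ _ h => ⟨?_, s5⟩⟩
        · rcases r with r | ⟨-, r⟩ <;> rw [r] <;> simp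
        · split_ifs at s5
          · exact Or.inl s5
          · exact Or.inr s5
        · rw [mu, if_pos hU]
          rcases r with r | ⟨-, r⟩ <;> rw [r] <;> simp only [cB] <;> split_ifs <;> omega
        · rcases r with r | ⟨r, -⟩
          · exact r
          · simp [r] at h
      · refine ⟨[], trivial, by simp, Or.inl (cj0 ?_), by simp [cB], fun _ _ h => absurd h ha⟩
        rw [w1.act, par_of_cntA w (by omega)] at s4
        exact s4
    · have a1 := alt_red (cw tw w (ew f z))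
      have a2 := cntA_red (cw tw w (ew f z))
      rw [cntA_cw] at a2
      have a3 := (alt_cnt _ a1).1.1
      have a4 := length_eq_cnt (red (cw tw w (ew f z)))
      have a5 : cntA (ew f z) = 4 := rfl
      have a6 : X.ka (c.1 y0) ≤ X.k (c.1 y0) := Nat.le_add_right _ _
      have a7 := length_dsec (ω := fun _ => ω M) [δ1, δ'] 0 _ a1
      simp only [dsec, List.length_cons, List.length_nil] at a7
      have s2 := (cj _ s1.red).red
      generalize red (sec (ω M) (red (sec (ω M) (red (cw tw w (ew f z))) δ1)) δ') = W0 at a7 s2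
      have b0 := length_red (wz ++ W0 ++ wz.reverse)
      have b1 : wz.length ≤ 1 := by rcases z2 with rfl | ⟨-, rfl⟩ <;> simp
      simp only [List.length_append, List.length_reverse] at b0
      refine ⟨_, alt_red _, by omega, Or.inl s2, ?_, fun _ h _ => absurd h hk⟩
      have b2 := cB_le_cntS x (red (wz ++ W0 ++ wz.reverse))
      have b3 := (alt_cnt _ (alt_red (wz ++ W0 ++ wz.reverse))).1.1
      have b4 := length_eq_cnt (red (wz ++ W0 ++ wz.reverse))
      have b5 : X.k (c.1 y0) + 8 ≤ 4 * Qn (X.k (c.1 y0)) := by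
        unfold Qn; rw [if_pos (by omega)]; nlinarith
      unfold mu; omega
  · obtain ⟨s1, -⟩ := cmm_sec l0 he' t1 w1 ((he _ l2).2.2 (show ¬ U _ by rwa [e1])) ((he _ l1).2.2 hU)
    exact ⟨[], trivial, by simp, Or.inl (cj0 (s1.congrP (evP_cw_nil _ _ _))), by simp [cB],
      fun h => absurd h hU⟩

theorem imp_dsec {x : Fin 3} {n t k : ℕ} (ht : 7 ≤ t) (hx : inact (ω (n + t)) = x) (w : Word)
    (hw : Alt w) (hl : w.length ≤ k + 7) :
    4 * ∑ v ∈ LV (t + 1), Qn (cntA (dsec ω n w v) + cB x (dsec ω n w v)) ≤ Qn k := by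
  have h256 : 256 ≤ 2 ^ (t + 1) := by
    calc 256 = 2 ^ 8 := by norm_num
      _ ≤ _ := Nat.pow_le_pow_right (by norm_num) (by omega)
  have hlen : ∀ v ∈ LV (t + 1), 256 * ((dsec ω n w v).length - 1) ≤ k + 6 := by
    intro v hv
    have h1 := length_dsec (ω := ω) v n w hw
    rw [mem_LV.1 hv] at h1
    have := Nat.mul_le_mul_right ((dsec ω n w v).length - 1) h256
    omega
  by_cases hk : k < 250
  · rw [Finset.sum_eq_zero fun v hv => ?_]
    · omega
    have := hlen v hv
    have := cnt_le_length x (dsec ω n w v)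
    unfold Qn; rw [if_neg (by omega)]
  · have h1 := sum_cB_dsec (ω := ω) x (t + 1) n w
    have h2 := sum_cntA_dsec (ω := ω) x t n w hx
    have h3 := cB_le_cntS x w
    have h4 := (alt_cnt w hw).1.1
    have h5 := length_eq_cnt w
    have h6 : ∑ v ∈ LV (t + 1), Qn (cntA (dsec ω n w v) + cB x (dsec ω n w v)) ≤
        ∑ v ∈ LV (t + 1), (k / 64) * (cntA (dsec ω n w v) + cB x (dsec ω n w v)) := by
      refine Finset.sum_le_sum fun v hv => ?_
      have := hlen v hv
      have := cnt_le_length x (dsec ω n w v)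
      unfold Qn; split_ifs
      · rw [sq]; exact Nat.mul_le_mul_right _ (by omega)
      · omega
    rw [← Finset.mul_sum, Finset.sum_add_distrib] at h6
    refine (Nat.mul_le_mul_left 4 h6).trans ?_
    unfold Qn; rw [if_pos (by omega), sq]
    calc _ ≤ 4 * ((k / 64) * (2 * k)) :=
          Nat.mul_le_mul_left _ (Nat.mul_le_mul_left _ (by omega))
      _ = (8 * (k / 64)) * k := by ring
      _ ≤ k * k := Nat.mul_le_mul_right _ (by omega)

/-- the new reading position -/
def rho (j : ℕ) (g c : Tr) (u : Vx) : Vx :=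
  (g⁻¹).1 ((c⁻¹).1 u) ++ (!ty ((g⁻¹).1 ((c⁻¹).1 u))) :: true :: (List.replicate j true ++ [false])

theorem length_rho (j : ℕ) (g c : Tr) (u : Vx) :
    (rho j g c u).length = u.length + 1 + 1 + j + 1 := by
  unfold rho
  rw [List.length_append, tr_len, tr_len]
  simp; ring

theorem rho_inj (j : ℕ) (g c : Tr) {u u' : Vx} (h : u.length = u'.length)
    (e : rho j g c u = rho j g c u') : u = u' := by
  have h2 := (List.append_inj e (by rw [tr_len, tr_len, tr_len, tr_len, h])).1
  exact (c⁻¹).1.injective ((g⁻¹).1.injective h2)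

theorem conv_leaf {f z x : Fin 3} {b M j : ℕ} {U : Vx → Prop} {e : Tr} (hb : b ≤ M)
    (h0 : inact (ω M) = z) (h1 : inact (ω (M + 1)) = z) (hf : f ≠ z)
    (hx : inact (ω (M + 1 + 1 + j)) = x) (hxz : x ≠ z) (hj : 7 ≤ j)
    (he : Prb ω (ew f z) M (fun u => U (u.take b)) e) (hes : St (M + 1 + 1) e)
    (g c : Tr) (hg : GZ ω z M g) (hc : Good ω f M c) (X : Lf) (hX : St b X.g)
    (hR : Rep ω f M X) :
    ∃ Y : Lf, Y.g = g⁻¹ * cmm e c X.g * g ∧ Rep ω x (M + 1 + 1 + j + 1) Y ∧
      Y.dead = X.dead + ∑ v ∈ LV M, Qn (X.k v) ∧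
      (∀ y : Vx, y.length = M + 1 + 1 →
        ∑ v ∈ LV (j + 1), Y.ka (y ++ v) ≤ mu b U X (c.1 (g.1 (y.take M))) ∧
        ∑ v ∈ LV (j + 1), Y.ks (y ++ v) ≤ mu b U X (c.1 (g.1 (y.take M)))) ∧
      ∑ v ∈ LV (M + 1 + 1 + j + 1), Qn (Y.k v) ≤ ∑ v ∈ LV M, Qn (X.k v) ∧
      ∀ p, Live b M U X p →
        Live (M + 1 + 1) (M + 1 + 1 + j + 1) (U2 M) Y (rl (rho j g c) p) := by
  classical
  have hst : St (M + 1 + 1) (cmm e c X.g) := by
    have := (hes.inv.mul (hes.conj X.g)).conj c
    simpa only [cmm, mul_assoc] using this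
  choose! R hR3 hR4 hR5 hR6 hR7 using comm_step x hb h0 h1 hf he hst hc hg hX hR
  set h := g⁻¹ * cmm e c X.g * g with hh
  set L := liftL ω x h (M + 1 + 1) R 0 with hL
  have hLr : Rep ω x (M + 1 + 1 + j + 1) L := liftL_rep 0 (by omega) hR5
  have hka : ∀ y v : Vx, y.length = M + 1 + 1 →
      L.ka (y ++ v) = cntA (dsec ω (M + 1 + 1) (R y) v) := by
    intro y v hy; simp only [hL, liftL, List.take_left' hy, List.drop_left' hy]
  have hks : ∀ y v : Vx, y.length = M + 1 + 1 →
      L.ks (y ++ v) = cB x (dsec ω (M + 1 + 1) (R y) v) := by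
    intro y v hy; simp only [hL, liftL, List.take_left' hy, List.drop_left' hy]
  have hact : col (ω (M + 1 + 1 + j)) z = true := by rw [col_iff, hx]; exact hxz.symm
  refine ⟨⟨h, L.ka, L.ks, X.dead + ∑ v ∈ LV M, Qn (X.k v)⟩, rfl, hLr, rfl, fun y hy => ?_, ?_, ?_⟩
  · simp only [hka _ _ hy, hks _ _ hy]
    exact ⟨(sum_cntA_dsec x j _ _ hx).trans (hR6 y hy), (sum_cB_dsec x _ _ _).trans (hR6 y hy)⟩
  · have a1 : 4 * ∑ v ∈ LV (M + 1 + 1 + j + 1), Qn (L.k v) ≤
        ∑ y ∈ LV (M + 2), Qn (X.k (c.1 (g.1 (y.take M)))) := by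
      rw [show M + 1 + 1 + j + 1 = M + 2 + (j + 1) by ring, sum_LV_add, Finset.mul_sum]
      refine Finset.sum_le_sum fun y hy => ?_
      have hy := mem_LV.1 hy
      simp only [Lf.k, hka _ _ hy, hks _ _ hy]
      exact imp_dsec hj hx _ (hR3 y hy) (hR4 y hy)
    have a2 : ∑ y ∈ LV (M + 2), Qn (X.k (c.1 (g.1 (y.take M)))) = 4 * ∑ v ∈ LV M, Qn (X.k v) := by
      rw [sum_LV_add, ← sum_level (c * g) M (fun v => Qn (X.k v)), Finset.mul_sum]
      refine Finset.sum_congr rfl fun y hy => ?_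
      simp only [List.take_left' (mem_LV.1 hy), Finset.sum_const, card_LV, tr_mul]
      rfl
    have : ∑ v ∈ LV (M + 1 + 1 + j + 1), Qn (L.k v) ≤ ∑ v ∈ LV M, Qn (X.k v) := by omega
    exact this
  · rintro p ⟨q, q1, q2, q3, q4⟩
    have key : ∀ u : Vx, u.length = M → U (u.take b) → X.k u ≤ 1 → 1 ≤ X.ka u →
        L.ka (rho j g c u) = 1 ∧ actF h.1 (rho j g c u) = actF X.g.1 u := by
      intro u hu k1 k2 k3
      have hy : ((g⁻¹).1 ((c⁻¹).1 u)).length = M := by rw [tr_len, tr_len, hu]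
      have ec : c.1 (g.1 ((g⁻¹).1 ((c⁻¹).1 u))) = u := by rw [tr_ap_inv, tr_ap_inv]
      unfold rho
      generalize (g⁻¹).1 ((c⁻¹).1 u) = y at hy ec
      have hy' : (y ++ [!ty y] ++ [true]).length = M + 1 + 1 := by simp [hy]
      have := hR7 _ hy'
      rw [List.append_assoc, List.take_left' hy, ec, ← List.append_assoc,
        List.drop_left' (by simp [hy])] at this
      obtain ⟨r1, r2⟩ := this k1 k2 k3 rfl
      have hd : dsec ω (M + 1 + 1) [some z] (List.replicate j true ++ [false]) = [none] := by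
        rw [dsec_append, dsec_true, List.length_replicate]
        simp [dsec, sec, hact, red, push]
      rw [show y ++ (!ty y) :: true :: (List.replicate j true ++ [false]) =
        y ++ [!ty y] ++ [true] ++ (List.replicate j true ++ [false]) by simp, hka _ _ hy', r1, hd]
      refine ⟨rfl, ?_⟩
      rw [(r2.dsec _).act, r1]
      split_ifs with h4
      · rw [hd, h4]; rfl
      · rw [dsec_nil]; simpa [par] using h4
    refine ⟨rl (rho j g c) (q.filter (fun e => decide (X.k e.1 ≤ 1))),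
      ((List.filter_sublist).trans q1).map _, ?_, fun F => ?_, fun e he => ?_⟩
    · have h1 := impure_le q3 (fun e => !decide (X.k e.1 ≤ 1)) (fun e _ h => by
        have : 1 < X.k e.1 := by simpa using h
        omega)
      have h2 := List.length_eq_countP_add_countP (fun e : Vx × Bool => decide (X.k e.1 ≤ 1)) (l := q)
      simp only [rl, List.length_map, ← List.countP_eq_length_filter]
      simp only [decide_not, Bool.decide_eq_true] at h2
      omega
    · have h1 := q3 (fun u => if U (u.take b) ∧ X.k u ≤ 1 then F (rho j g c u) else 0)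
      have h2 := filter_sum q (fun e => decide (X.k e.1 ≤ 1)) (fun u => F (rho j g c u))
        (fun u => if U (u.take b) ∧ X.k u ≤ 1 then F (rho j g c u) else 0) (fun e he h => by
          rw [if_pos ⟨(q4 e he).2.1, by simpa using h⟩])
      simp only [rl, List.map_map]
      refine (h2.trans h1).trans ?_
      have h3 : ∑ u ∈ LV M, X.ka u * (if U (u.take b) ∧ X.k u ≤ 1 then F (rho j g c u) else 0)
          ≤ ∑ u ∈ LV M, L.ka (rho j g c u) * F (rho j g c u) := by
        refine Finset.sum_le_sum fun u hu => ?_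
        split_ifs with h
        · rcases Nat.eq_zero_or_pos (X.ka u) with h0 | h0
          · simp [h0]
          · rw [(key u (mem_LV.1 hu) h.1 h.2 h0).1]
            have : X.ka u ≤ X.k u := Nat.le_add_right _ _
            exact Nat.mul_le_mul_right _ (by omega)
        · simp
      refine h3.trans ?_
      rw [← Finset.sum_image (s := LV M) (g := rho j g c) (f := fun v => L.ka v * F v)
        (fun u hu u' hu' h => rho_inj j g c (by rw [mem_LV.1 hu, mem_LV.1 hu']) h)]
      refine Finset.sum_le_sum_of_subset fun v hv => ?_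
      obtain ⟨u, hu, rfl⟩ := Finset.mem_image.1 hv
      rw [mem_LV, length_rho, mem_LV.1 hu]
    · obtain ⟨e', he', rfl⟩ := List.mem_map.1 he
      rw [List.mem_filter] at he'
      obtain ⟨k1, k2, k3⟩ := q4 e' he'.1
      have h4 : X.k e'.1 ≤ 1 := by simpa using he'.2
      refine ⟨by rw [length_rho, k1], ?_, fun _ => ?_⟩
      · rw [U2_take le_rfl]
        exact (U2_iff (by rw [tr_len, tr_len, k1]) _ _ _).2 ⟨rfl, rfl⟩
      · show actF h.1 _ = e'.2
        rw [(key _ k1 k2 h4 (one_le_ka q3 he'.1)).2, k3 h4]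

theorem st_ew {f z : Fin 3} {M R : ℕ} {C : Vx → Prop} {e : Tr}
    (hrun : ∀ t < R, inact (ω (M + t)) = z) (he : Prb ω (ew f z) M C e) : St (M + R) e := by
  have h1 : ∀ (v : Vx) (ω : ℕ → Fin 3), (∀ t < v.length, inact (ω t) = z) → genFun z v ω = v := by
    intro v
    induction v with
    | nil => intro ω _; rfl
    | cons x v ih =>
      intro ω h
      cases x
      · simp [genFun, not_col (h 0 (by simp))]
      · simp only [genFun]
        rw [ih (shift ω) (fun t ht => h (t + 1) (by simpa using ht))]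
  have h2 : ∀ v : Vx, v.length = R → letFun (sh M ω) (some z) v = v := fun v hv =>
    h1 v _ fun t ht => by rw [← hrun t (by omega)]; simp only [sh]; rw [add_comm]
  have h3 : ∀ x (v : Vx), (letFun (sh M ω) x v).length = v.length := fun x v => by
    cases x
    · exact length_flipFun v
    · exact length_genFun _ v _
  intro u hu
  obtain ⟨a1, a2, a3⟩ := he (u.take M) (by simp; omega)
  have hl : (u.drop M).length = R := by simp; omega
  conv_lhs => rw [← List.take_append_drop M u]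
  by_cases hc : C (u.take M)
  · rw [a2 hc, a1]
    simp only [ew, run]
    rw [h2 _ (by simp only [h3, hl]), letFun_invol, h2 _ (by simp only [h3, hl]), letFun_invol,
      letFun_invol, List.take_append_drop]
  · rw [a3 hc, a1]; simp [run]

theorem gz_cube {z : Fin 3} {M : ℕ} (ns : List ℕ) (hn : ns.Nodup)
    (h : ∀ n ∈ ns, n < M ∧ (n = 0 ∨ col (ω (n - 1)) z = true)) :
    All (cubeT (ns.map (fun n => jumpL ω z n z)))
      (fun a p => GZ ω z M a.g ∧ InBall ω (lenSum ω M) a.g.1 ∧ p = []) := by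
  refine (all_cubeT (fun L a => GZ ω z M a.g ∧ InBall ω ((L.map (fun h => wl ω h.g)).sum) a.g.1)
    _ ⟨fun u _ => ⟨[], SecW.one M u, rfl⟩, InBall.one ω _⟩ ?_).mono fun a p hp =>
      ⟨hp.1.1, hp.1.2.mono (jumps_cost z ns (fun _ => z) hn fun n hn => (h n hn).1), hp.2⟩
  rintro x hx L a ⟨a1, a2⟩
  obtain ⟨n, hn, rfl⟩ := List.mem_map.1 hx
  obtain ⟨n1, n2⟩ := h n hn
  simp only [List.map_cons, List.sum_cons]
  refine ⟨⟨a1, a2.mono (by omega)⟩, fun u hu => ?_, ?_⟩
  · have hl : (u.take n).length = n := by simp; omega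
    obtain ⟨w, w1, w2⟩ : ∃ w, SecW ω n (jump ω n z) (u.take n) w ∧ cB z w = 0 := by
      rcases (jump_sec n2 _ hl).2 with h | h <;> exact ⟨_, h, by simp [cB]⟩
    have s1 := w1.dsec (u.drop n)
    have hd : (u.drop n).length = M - n := by simp [hu]
    rw [List.take_append_drop, hd, show n + (M - n) = M by omega] at s1
    have s2 := sum_cB_dsec (ω := ω) z (M - n) n w
    have s3 := Finset.single_le_sum (s := LV (M - n)) (f := fun v => cB z (dsec ω n w v))
      (fun _ _ => Nat.zero_le _) (mem_LV.2 hd)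
    obtain ⟨w', w3, w4⟩ := a1 ((jump ω n z).1 u) (by rw [tr_len, hu])
    exact ⟨_, s1.mul w3, by rw [cB_append]; omega⟩
  · rw [add_comm]
    exact a2.mul (wl_spec ω (jump_ball ω n z))

open Classical in
theorem convert {f z x : Fin 3} {b P R j H cE : ℕ} {U : Vx → Prop} {e : Tr} (hb : b ≤ P + 1)
    (hf0 : inact (ω P) = f) (hrun : ∀ t < R, inact (ω (P + 1 + t)) = z) (hR2 : 2 ≤ R) (hf : f ≠ z)
    (hx : inact (ω (P + 1 + 1 + 1 + j)) = x) (hxz : x ≠ z) (hj : 7 ≤ j)
    (he : Prb ω (ew f z) (P + 1) (fun u => U (u.take b)) e) (heb : InBall ω cE e.1)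
    (hH : ((LV b).filter U).card ≤ H)
    {t : RT Lf} {n c : ℕ} {μ σ ι δ : ℝ} (h : Inv ω f b (P + 1) U t n c μ σ ι δ) :
    ∃ t', Inv ω x (P + 1 + 1 + 1) (P + 1 + 1 + 1 + j + 1) (U2 (P + 1)) t' n
      (2 * c + 2 * cE + 4 * lenSum ω (P + 1)) ((1 / 2) ^ (P + 1) * (H * μ + 2 * ι))
      (2 * ((1 / 2) ^ (P + 1) * (H * μ + 2 * ι))) ι (δ + ι) ∧
      All t' (fun a _ => St (P + 1 + R) a.g) := by
  set M := P + 1 with hM
  have hes := st_ew hrun he
  set is := (List.range M).filter (fun n => decide (n = 0 ∨ col (ω (n - 1)) f = true)) with his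
  set os := (List.range M).filter (fun n => !decide (n = 0 ∨ col (ω (n - 1)) f = true)) with hos
  have i1 : ∀ n ∈ is, n < M ∧ (n = 0 ∨ col (ω (n - 1)) f = true) := fun n hn => by
    simpa [his] using hn
  have o1 : ∀ n ∈ os, n < M ∧ (n = 0 ∨ col (ω (n - 1)) z = true) := fun n hn => by
    simp only [hos, List.mem_filter, List.mem_range, Bool.not_eq_eq_eq_not, Bool.not_true,
      decide_eq_false_iff_not, not_or, col_iff, not_not] at hn
    exact ⟨hn.1, Or.inr (by rw [col_iff, ← hn.2.2]; exact hf.symm)⟩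
  have o2 : os.Nodup := List.nodup_range.filter _
  have i2 : is.Nodup := List.nodup_range.filter _
  have pm : (os ++ is).Perm (List.range M) :=
    List.perm_append_comm.trans (List.filter_append_perm _ _)
  have aO := gz_cube os o2 o1
  have aI := good_cube hf0 is i2 (N := M) le_rfl i1
  have lO := forall2_jump z os (fun _ => z) (fun n hn => (o1 n hn).2)
  have lI := forall2_jump f is (fun _ => f) (fun n hn => (i1 n hn).2)
  generalize os.map (fun n => jumpL ω z n z) = LO at aO lO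
  generalize is.map (fun n => jumpL ω f n f) = LI at aI lI
  have hcv := fun (a c X : Lf) (ha : GZ ω z M a.g) (hc : Good ω f M c.g)
    (hX : St b X.g) (hR : Rep ω f M X) => conv_leaf hb (hrun 0 (by omega)) (hrun 1 (by omega)) hf
      hx hxz hj he (hes.mono (by omega)) a.g c.g ha hc X hX hR
  have : Nonempty Lf := ⟨Lf.one⟩
  choose! cv c1 c3 c4 c5 c6 c7 using hcv
  have c2 : ∀ a c X : Lf, St (M + R) (a.g⁻¹ * cmm e c.g X.g * a.g) := fun a c X => by
    have := ((hes.inv.mul (hes.conj X.g)).conj c.g).conj a.g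
    simpa only [cmm, mul_assoc] using this
  have avg : ∀ (φ : Lf → ℝ) (F : Lf → Lf → Lf → ℝ), (∀ a c X, GZ ω z M a.g →
      Good ω f M c.g → St b X.g → Rep ω f M X → φ (cv a c X) ≤ F a c X) →
      E ((cubeT LO).bind fun a => (cubeT LI).bind fun c => t.mp (cv a c) (rho j a.g c.g)) φ ≤
        E (cubeT LO) (fun a => E (cubeT LI) (fun c => E t (F a c))) := by
    intro φ F hF
    simp only [E_bind, E_mp]
    exact E_mono_all (aO.mono fun a _ ha => E_mono_all (aI.mono fun c _ hc =>
      E_mono_all (h.pw.mono fun X _ hX => hF a c X ha.1 hc.1 hX.1.1 hX.1.2.1)))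
  have cub : ∀ y : Vx, y.length = M → E (cubeT LO) (fun a => E (cubeT LI)
      (fun c => E t (fun X => (mu b U X (c.g.1 (a.g.1 y)) : ℝ)))) ≤
      (1 / 2) ^ M * (H * μ + 2 * ι) := by
    intro y hy
    have e1 : ∀ y, E (cubeT LI) (fun c => E t (fun X => (mu b U X (c.g.1 y) : ℝ))) =
        mkL (LI.map Lf.g) (fun y => E t (fun X => (mu b U X y : ℝ))) y :=
      fun y => E_cubeT LI (fun y => E t (fun X => (mu b U X y : ℝ))) y
    simp only [e1]
    rw [E_cubeT LO (mkL (LI.map Lf.g) (fun y => E t (fun X => (mu b U X y : ℝ)))) y, ← mkL_append]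
    refine (cube_le (b := 0) (t := M) (List.rel_append lO lI) (pm.nodup_iff.2 List.nodup_range)
      (fun n hn => by have := List.mem_range.1 (pm.subset hn); omega) _
      (fun y => E_nonneg _ fun a => by positivity) y (by omega)).trans ?_
    rw [pm.length_eq, List.length_range]
    simp only [List.take_zero, List.nil_append]
    exact mul_le_mul_of_nonneg_left (sum_mu hb hH h) (by positivity)
  have hma : ∀ u : Vx, u.length = M + 1 + 1 →
      E ((cubeT LO).bind fun a => (cubeT LI).bind fun c => t.mp (cv a c) (rho j a.g c.g))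
        (fun a => ∑ v ∈ LV (M + 1 + 1 + j + 1 - (M + 1 + 1)), (a.ka (u ++ v) : ℝ)) ≤
        (1 / 2) ^ M * (H * μ + 2 * ι) := by
    intro u hu
    rw [show M + 1 + 1 + j + 1 - (M + 1 + 1) = j + 1 by omega]
    refine (avg _ _ fun a c X ha hc hX hR => ?_).trans (cub (u.take M) (by simp; omega))
    exact_mod_cast (c5 a c X ha hc hX hR u hu).1
  have hms : ∀ u : Vx, u.length = M + 1 + 1 →
      E ((cubeT LO).bind fun a => (cubeT LI).bind fun c => t.mp (cv a c) (rho j a.g c.g))
        (fun a => ∑ v ∈ LV (M + 1 + 1 + j + 1 - (M + 1 + 1)), (a.ks (u ++ v) : ℝ)) ≤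
        (1 / 2) ^ M * (H * μ + 2 * ι) := by
    intro u hu
    rw [show M + 1 + 1 + j + 1 - (M + 1 + 1) = j + 1 by omega]
    refine (avg _ _ fun a c X ha hc hX hR => ?_).trans (cub (u.take M) (by simp; omega))
    exact_mod_cast (c5 a c X ha hc hX hR u hu).2
  have hall : All ((cubeT LO).bind fun a => (cubeT LI).bind fun c => t.mp (cv a c) (rho j a.g c.g))
      (fun a p => (PW ω x (M + 1 + 1) (M + 1 + 1 + j + 1) (U2 M) a p ∧ p.length = n ∧
        InBall ω (2 * c + 2 * cE + 4 * lenSum ω M) a.g.1) ∧ St (M + R) a.g) := by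
    refine all_bind (aO.mono fun a p ha => all_bind (aI.mono fun c q hc =>
      all_mp (h.pw.mono fun X r hX => ?_)))
    obtain ⟨a1, a2, rfl⟩ := ha
    obtain ⟨b1, b2, rfl⟩ := hc
    obtain ⟨⟨x1, x2, x3⟩, x4, x5⟩ := hX
    have s : St (M + R) (cv a c X).g := by rw [c1 a c X a1 b1 x1 x2]; exact c2 a c X
    refine ⟨⟨⟨s.mono (by omega), c3 a c X a1 b1 x1 x2, c7 a c X a1 b1 x1 x2 r x3⟩,
      by simpa [rl] using x4, ?_⟩, s⟩
    rw [c1 a c X a1 b1 x1 x2]
    exact (((ball_inv a2).mul ((ball_inv b2).mul ((ball_inv heb).mul ((ball_inv x5).mul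
      (heb.mul (x5.mul b2)))))).mul a2).mono (by omega)
  refine ⟨(cubeT LO).bind fun a => (cubeT LI).bind fun c => t.mp (cv a c) (rho j a.g c.g),
    ⟨hall.mono fun _ _ h => h.1, hma, hms, fun v hv => ?_, ?_, ?_⟩, hall.mono fun _ _ h => h.2⟩
  · have h1 := hma (v.take (M + 1 + 1)) (by simp; omega)
    have h2 := hms (v.take (M + 1 + 1)) (by simp; omega)
    have h3 := add_le_add h1 h2
    rw [← E_add, ← two_mul] at h3
    refine (E_mono _ fun a => ?_).trans h3
    rw [← Finset.sum_add_distrib]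
    have := Finset.single_le_sum (s := LV (M + 1 + 1 + j + 1 - (M + 1 + 1)))
      (f := fun y => (a.ka (v.take (M + 1 + 1) ++ y) : ℝ) + a.ks (v.take (M + 1 + 1) ++ y))
      (fun _ _ => by positivity) (a := v.drop (M + 1 + 1)) (by rw [mem_LV]; simp; omega)
    simpa [Lf.k] using this
  · refine (avg _ (fun _ _ X => ∑ v ∈ LV M, (Qn (X.k v) : ℝ)) fun a c X ha hc hX hR => ?_).trans ?_
    · exact_mod_cast c6 a c X ha hc hX hR
    · simp only [E_const]; exact h.imp
  · refine (avg _ (fun _ _ X => (X.dead : ℝ) + ∑ v ∈ LV M, (Qn (X.k v) : ℝ))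
      fun a c X ha hc hX hR => ?_).trans ?_
    · rw [c4 a c X ha hc hX hR]; push_cast; exact le_rfl
    · simp only [E_const, E_add]; exact add_le_add h.dead h.imp

end Pool.Agent.MP_fbbd83_al.St
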