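import Pool.Agent.MP_fbbd83_al.St.Stg
import Pool.Agent.MP_fbbd83_al.St.Cls

/-! The lower bound for sequences with long runs of one symbol. -/

namespace Pool.Agent.MP_fbbd83_al.St

open Pl Pl.RT

variable {ω : ℕ → Fin 3} {j : Fin 3} {r R T K : ℕ} {s : ℕ → ℕ}

variable (ω j r s R T K) in
/-- a stage whose lamps lie at the start of the first long block among `k, …, K` -/
def Pos (k i : ℕ) (a g Γ : ℝ) : Prop :=
  ∃ k' c, k ≤ k' + 1 ∧ (Long s R T (k' + 1) ∨ k' = K) ∧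
    (∀ l, k ≤ l → l ≤ k' → ¬ Long s R T l) ∧
    Stg ω (inact j) (4 * r + 4) (s (k' + 1) - 1) (Long s R T (k' + 1)) i a g c ∧
    2 ^ cv s R T K k * (c : ℝ) ≤ Γ * 2 ^ i

theorem Pos.mono {k i : ℕ} {a g Γ a' g' Γ' : ℝ} (h : Pos ω j r R T K s k i a g Γ) (ha : a ≤ a')
    (hg : g ≤ g') (hΓ : Γ ≤ Γ') : Pos ω j r R T K s k i a' g' Γ' := by
  obtain ⟨k', c, h1, h2, h3, h4, h5⟩ := h
  exact ⟨k', c, h1, h2, h3, h4.mono ha hg le_rfl, h5.trans (by gcongr)⟩

theorem exists_next (h0 : ¬ Long s R T 0) (u : ℕ) : ∀ k, k + u = K + 1 →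
    ∃ k', k ≤ k' + 1 ∧ (Long s R T (k' + 1) ∨ k' = K) ∧ ∀ l, k ≤ l → l ≤ k' → ¬ Long s R T l := by
  induction u with
  | zero => intro k hk; exact ⟨K, by omega, Or.inr rfl, fun l _ _ => by omega⟩
  | succ u ih =>
    intro k hk
    by_cases hl : Long s R T k
    · rcases k with _ | k
      · exact absurd hl h0
      · exact ⟨k, le_rfl, Or.inl hl, fun l _ _ => by omega⟩
    · obtain ⟨k', h1, h2, h3⟩ := ih (k + 1) (by omega)
      refine ⟨k', by omega, h2, fun l l1 l2 => ?_⟩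
      by_cases e : l = k
      · rwa [e]
      · exact h3 l (by omega) l2

theorem lenSum_gn {t t' n : ℕ} (h : t ≤ t') (hn : t ≤ n) :
    (lenSum ω t : ℝ) ≤ gn ω t' * 2 ^ n := by
  have a1 := gn_mono (ω := ω) h
  have a2 := gn_pos (ω := ω) t'
  calc _ = gn ω t * 2 ^ t := by unfold gn; field_simp
    _ ≤ _ := mul_le_mul a1 (pow_le_pow_right₀ (by norm_num) hn) (by positivity) (by linarith)

section
variable (hN : Near j r ω) (hS : Seg ω j s) (hr : r ≤ R) (h10 : 10 ≤ R) (h1 : s 1 ≤ R)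
include hS h10

theorem long_two {k : ℕ} (h : Long s R T (k + 1)) :
    inact (ω (s (k + 1) - 1 + 1)) = inact j ∧ inact (ω (s (k + 1) - 1 + 1 + 1)) = inact j := by
  have := hS.lt k
  have := h.1
  rw [hS.run (k + 1) _ (by omega) (by omega), hS.run (k + 1) _ (by omega) (by omega)]
  exact ⟨rfl, rfl⟩

include h1

omit h10 in
theorem not_long_zero : ¬ Long s R T 0 := fun h => by
  have := h.1
  rw [hS.zero] at this
  simp only [zero_add] at this
  omega

theorem pos_zero : Pos ω j r R T K s 0 0 0 0 (2 ^ cv s R T K 0) := by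
  obtain ⟨k', a1, a2, a3⟩ := exists_next (K := K) (not_long_zero (T := T) hS h1) (K + 1) 0 (by omega)
  exact ⟨k', 1, a1, a2, a3, stg_zero (by omega) (inact_ne (hS.last k')) (long_two hS h10),
    by simp⟩

include hN hr

theorem Pos.run {k i Λ Δ : ℕ} {a g Γ : ℝ} (hk : k ≤ K) (hi : i ≤ s k) (hi' : s k ≤ i + Δ)
    (hΛ : Λ ≤ Δ) (a0 : 0 ≤ a) (g0 : 0 ≤ g) (hg : g + 2 * a ≤ 1)
    (h : Pos ω j r R T K s k i a g Γ) :
    ∃ i', (i' = i ∨ i' + Δ ≤ min (s (k + 1)) T) ∧ min (s (k + 1)) T ≤ i' + Δ + R + 3 ∧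
      Pos ω j r R T K s (k + 1) i' (a + 128 * (1 / 2) ^ Λ) (g + 2 * a)
        (Γ + 2 ^ cv s R T K (k + 1) * (32 * r + 39) * 2 ^ (Δ + 2) * gn ω (min (s (k + 1)) T)) := by
  obtain ⟨k', c, b1, b2, b3, b4, b5⟩ := h
  have g3 := gn_pos (ω := ω) (min (s (k + 1)) T)
  by_cases hl : Long s R T k
  · obtain rfl : k = k' + 1 := by
      by_contra hc
      exact b3 k le_rfl (by omega) hl
    obtain ⟨k'', d1, d2, d3⟩ := exists_next (K := K) (not_long_zero (T := T) hS h1)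
      (K - (k' + 1)) (k' + 1 + 1) (by omega)
    have l0 := hS.lt k'
    have l1 := hl.1
    have l2 := hl.2
    have l3 := hS.mono d1
    have st := Stg.run (Λ := Λ) (Δ := Δ) (Q := min (s (k' + 1 + 1) - 1) T)
      (pr' := Long s R T (k'' + 1)) (i := i) (P' := s (k'' + 1) - 1) (Q' := s (k' + 1 + 1) - 1)
      hN.ratio (inact_ne (hS.last k'))
      (fun t t1 t2 => by rw [hS.run (k' + 1) t (by omega) (by omega)]) (by omega) (min_le_left _ _)
      (inact_ne (hS.last (k' + 1))) (by omega) (by omega) (inact_ne (hS.last k''))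
      (fun hp => ⟨by
        obtain ⟨m, c1, c2, -⟩ := hS.gap' hN hr (show k' + 1 < k'' + 1 by omega) hl hp
        omega, long_two hS h10 hp⟩) (by omega) (by omega) hΛ a0 g0 hg
      (by simpa only [hl] using b4)
    refine ⟨_, by omega, by omega, k'', _, d1, d2, d3, st, ?_⟩
    rw [cv_long hk hl, pow_succ] at b5
    have e1 := lenSum_gn (ω := ω) (t := min (i + Δ + 2) (min (s (k' + 1 + 1) - 1) T))
      (t' := min (s (k' + 1 + 1)) T) (n := i + (Δ + 2)) (by omega) (by omega)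
    generalize min (s (k' + 1 + 1) - 1) T - (i + Δ + 2) = n
    have e2 := mul_le_mul_of_nonneg_left e1
      (show (0 : ℝ) ≤ 2 ^ cv s R T K (k' + 1 + 1) * (32 * r + 39) by positivity)
    have e3 := mul_le_mul_of_nonneg_left (add_le_add b5 e2) (show (0 : ℝ) ≤ 2 ^ n by positivity)
    push_cast
    rw [pow_add (2 : ℝ) i] at e3 ⊢
    linarith
  · have b6 : k ≤ k' := by
      by_contra hc
      obtain rfl : k = k' + 1 := by omega
      exact b2.elim hl (by omega)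
    have b7 : min (s (k + 1)) T ≤ s k + R := by
      unfold Long at hl; omega
    refine ⟨i, Or.inl rfl, by omega, k', c, by omega, b2, fun l l1 => b3 l (by omega),
      b4.mono (le_add_of_nonneg_right (by positivity)) (by linarith) le_rfl, ?_⟩
    rw [← cv_not hk hl]
    exact b5.trans (by gcongr; exact le_add_of_nonneg_right (by positivity))

omit h10 h1 hr in
theorem Pos.iter {k i Λ n : ℕ} {a g Γ : ℝ} (g0 : 0 ≤ g)
    (hn : n = 0 ∨ i + n + ((4 * r + 1) * Λ + (4 * r + 3)) ≤ s k)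
    (ha : a + 240 * n * (1 / 2) ^ Λ ≤ 1) (hg : g + n * (1 / 2) ^ Λ ≤ 1)
    (h : Pos ω j r R T K s k i a g Γ) :
    Pos ω j r R T K s k (i + n) (a + 240 * n * (1 / 2) ^ Λ) (g + n * (1 / 2) ^ Λ)
      (Γ + 2 ^ cv s R T K k * n * 2 ^ ((4 * r + 1) * Λ + (4 * r + 3)) * gn ω (s k)) := by
  obtain ⟨k', c, b1, b2, b3, b4, b5⟩ := h
  have l0 := hS.lt k'
  have l1 := hS.mono b1
  refine ⟨k', _, b1, b2, b3, b4.iter (Δ := (4 * r + 1) * Λ + (4 * r + 3))
    (hN.win (inact_ne (hS.last k'))) (le_of_eq (by ring)) g0 n (by omega) ha hg, ?_⟩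
  generalize (4 * r + 1) * Λ + (4 * r + 3) = Δ at *
  have e3 := mul_le_mul_of_nonneg_left b5 (show (0 : ℝ) ≤ 2 ^ n by positivity)
  have e4 : (n : ℝ) * lenSum ω (i + n + Δ) ≤ n * (gn ω (s k) * 2 ^ (i + n + Δ)) := by
    rcases hn with rfl | hn
    · simp
    · exact mul_le_mul_of_nonneg_left (lenSum_gn hn le_rfl) (by positivity)
  have e5 := mul_le_mul_of_nonneg_left e4 (show (0 : ℝ) ≤ 2 ^ cv s R T K k by positivity)
  push_cast
  rw [pow_add, pow_add] at e5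
  rw [pow_add]
  linarith

theorem main_ind (hK : s K ≤ T) {D Λ : ℕ} (hD : D = (2 * r + 1) * (65 * (4 * r + 2)))
    {α β Γ θ : ℝ} (hθ : θ = 1 / (2 * D))
    (hα : 2 * (128 + 240 * (R + 4 * r + 4)) * (1 / 2) ^ Λ ≤ α * θ)
    (hβ : 2 * α + 2 * (R + 4 * r + 4) * (1 / 2) ^ Λ ≤ β * θ) (hs : β + 2 * α ≤ 1)
    (hΓ : 14 * gn ω T * (2 ^ ((4 * r + 1) * Λ + (4 * r + 3)) *
      ((32 * r + 39) * 2 ^ (4 * r + 3) + (R + 4 * r + 4))) ≤ Γ * θ) (k : ℕ) :
    ∀ u, k + u = K → Pos ω j r R T K s k (s k - ((4 * r + 1) * (Λ + u / D) + (4 * r + 3)))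
      (α * (1 - θ) ^ u) (β * (1 - θ) ^ u) (Γ * (1 - θ) ^ u) := by
  have D0 : 0 < D := by rw [hD]; positivity
  have D1 : (1 : ℝ) ≤ D := by exact_mod_cast D0
  have θ0 : 0 < θ := by rw [hθ]; positivity
  have θ1 : θ ≤ 1 := by rw [hθ, div_le_one (by positivity)]; linarith
  have x0 : 0 ≤ 1 - θ := by linarith
  have xu : ∀ u, (1 - θ) ^ u ≤ 1 := fun u => pow_le_one₀ x0 (by linarith)
  have α0 : 0 ≤ α := nonneg_of_mul_nonneg_left (le_trans (by positivity) hα) θ0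
  have β0 : 0 ≤ β := nonneg_of_mul_nonneg_left (le_trans (by positivity) hβ) θ0
  have gT := gn_pos (ω := ω) T
  have Γ0 : 0 ≤ Γ := nonneg_of_mul_nonneg_left (le_trans (by positivity) hΓ) θ0
  have bud : ∀ k u, k + u = K → 2 ^ cv s R T K k * 2 ^ ((4 * r + 1) * (u / D)) * gn ω (s k) ≤
      14 * gn ω T * (1 - θ) ^ u := by
    intro k u hu
    have a1 := hS.budget hN hr (by omega) hK (4 * r + 2) (show k ≤ K by omega)
    rw [← hD, show K - k = u by omega] at a1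
    have a2 := half_pow_le D0 u
    rw [← hθ] at a2
    have a3 := mul_le_mul a1 a2 (by positivity) (by positivity)
    rw [show (4 * r + 2) * (u / D) = (4 * r + 1) * (u / D) + u / D by ring, pow_add, pow_add,
      one_div, inv_pow] at a3
    refine le_trans (le_of_eq ?_) (a3.trans (le_of_eq ?_))
    · field_simp
    · ring
  induction k with
  | zero =>
    intro u hu
    rw [hS.zero, Nat.zero_sub]
    refine (pos_zero hS h10 h1).mono (by positivity) (by positivity) ?_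
    have a1 := bud 0 u hu
    have a2 := gn_pos (ω := ω) (s 0)
    have a3 : (1 : ℝ) ≤ 2 ^ ((4 * r + 1) * (u / D)) := one_le_pow₀ (by norm_num)
    have a4 : (1 : ℝ) ≤ 2 ^ ((4 * r + 1) * Λ + (4 * r + 3)) *
        ((32 * r + 39) * 2 ^ (4 * r + 3) + (R + 4 * r + 4)) :=
      one_le_mul_of_one_le_of_one_le (one_le_pow₀ (by norm_num))
        (le_add_of_nonneg_of_le (by positivity) (by
          have : (0 : ℝ) ≤ R + 4 * r := by positivity
          linarith))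
    have a5 : 14 * gn ω T ≤ Γ := by nlinarith
    calc (2 : ℝ) ^ cv s R T K 0 = 2 ^ cv s R T K 0 * 1 * 1 := by ring
      _ ≤ 2 ^ cv s R T K 0 * 2 ^ ((4 * r + 1) * (u / D)) * gn ω (s 0) := by gcongr; linarith
      _ ≤ _ := a1.trans (by gcongr)
  | succ k ih =>
    intro u hu
    have q1 : u / D ≤ (u + 1) / D := Nat.div_le_div_right (by omega)
    have q2 : (u + 1) / D ≤ u / D + 1 := by
      rw [← Nat.add_div_right u D0]; exact Nat.div_le_div_right (by omega)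
    have ih := ih (u + 1) (by omega)
    have bu := bud (k + 1) u hu
    have hq := half_pow_le D0 u
    rw [← hθ] at hq
    have m1 := Nat.mul_le_mul_left (4 * r + 1) (Nat.add_le_add_left q1 Λ)
    have m2 := Nat.mul_le_mul_left (4 * r + 1) (Nat.add_le_add_left q2 Λ)
    have m3 : Λ + u / D ≤ (4 * r + 1) * (Λ + u / D) := Nat.le_mul_of_pos_left _ (by omega)
    rw [← add_assoc, mul_add_one (4 * r + 1)] at m2
    have y0 := pow_nonneg x0 u
    have y1 := xu u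
    have y2 := xu (u + 1)
    have l0 := hS.lt k
    have l1 : min (s (k + 1)) T = s (k + 1) := min_eq_left ((hS.mono (by omega)).trans hK)
    generalize hΔ : (4 * r + 1) * (Λ + (u + 1) / D) + (4 * r + 3) = Δ at ih
    obtain ⟨i', c1, c2, c3⟩ := ih.run hN hS hr h10 h1 (Λ := Λ + u / D) (Δ := Δ) (by omega)
      (by omega) (by omega) (by omega) (by positivity) (by positivity) (by nlinarith)
    rw [l1] at c1 c2 c3
    obtain ⟨n, hn⟩ : ∃ n, s (k + 1) - ((4 * r + 1) * (Λ + u / D) + (4 * r + 3)) = i' + n :=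
      ⟨s (k + 1) - ((4 * r + 1) * (Λ + u / D) + (4 * r + 3)) - i', by omega⟩
    have n1 : (n : ℝ) ≤ R + 4 * r + 4 := by exact_mod_cast (show n ≤ R + 4 * r + 4 by omega)
    have hη : (1 / 2 : ℝ) ^ (Λ + u / D) ≤ (1 / 2) ^ Λ * (2 * (1 - θ) ^ u) := by
      rw [pow_add]; gcongr
    have n2 := mul_le_mul n1 hη (by positivity) (by positivity)
    have e1 : α * (1 - θ) ^ (u + 1) + 128 * (1 / 2) ^ (Λ + u / D) +
        240 * n * (1 / 2) ^ (Λ + u / D) ≤ α * (1 - θ) ^ u := by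
      have := mul_le_mul_of_nonneg_right hα y0
      rw [pow_succ]; linarith
    have e2 : β * (1 - θ) ^ (u + 1) + 2 * (α * (1 - θ) ^ (u + 1)) + n * (1 / 2) ^ (Λ + u / D) ≤
        β * (1 - θ) ^ u := by
      have := mul_le_mul_of_nonneg_right hβ y0
      have := mul_nonneg (mul_nonneg α0 y0) θ0.le
      rw [pow_succ]; linarith
    rw [hn]
    refine (c3.iter hN hS (Λ := Λ + u / D) (n := n) (by positivity) (by omega)
      (e1.trans (by nlinarith)) (e2.trans (by nlinarith))).mono e1 e2 ?_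
    have f1 : (2 : ℝ) ^ (Δ + 2) ≤ 2 ^ ((4 * r + 1) * (Λ + u / D) + (4 * r + 3)) * 2 ^ (4 * r + 3) := by
      rw [← pow_add]; exact pow_le_pow_right₀ (by norm_num) (by omega)
    have f2 : (2 : ℝ) ^ ((4 * r + 1) * (Λ + u / D) + (4 * r + 3)) =
        2 ^ ((4 * r + 1) * (u / D)) * 2 ^ ((4 * r + 1) * Λ + (4 * r + 3)) := by
      rw [← pow_add]; congr 1; ring
    rw [f2] at f1 ⊢
    have g1 := gn_pos (ω := ω) (s (k + 1))
    have f3 := mul_le_mul_of_nonneg_right hΓ y0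
    have f4 := mul_le_mul_of_nonneg_right bu (show (0 : ℝ) ≤ 2 ^ ((4 * r + 1) * Λ + (4 * r + 3)) *
      ((32 * r + 39) * 2 ^ (4 * r + 3) + (R + 4 * r + 4)) by positivity)
    have f5 := mul_le_mul_of_nonneg_left f1
      (show (0 : ℝ) ≤ 2 ^ cv s R T K (k + 1) * (32 * r + 39) * gn ω (s (k + 1)) by positivity)
    have f6 := mul_le_mul_of_nonneg_left n1 (show (0 : ℝ) ≤ 2 ^ cv s R T K (k + 1) *
      (2 ^ ((4 * r + 1) * (u / D)) * 2 ^ ((4 * r + 1) * Λ + (4 * r + 3))) * gn ω (s (k + 1))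
      by positivity)
    rw [pow_succ (1 - θ)]
    linarith

end

theorem growth_ge (hN : Near j r ω) (hj : ∀ n, ∃ m, n ≤ m ∧ ω m ≠ j) :
    ∃ C t, 0 < C ∧ ∀ T, ∃ i, T ≤ i + t ∧
      Real.exp (2 ^ i / 4) ≤ growth (gens ω) (C * lenSum ω T) := by
  classical
  obtain ⟨s, hS⟩ := exists_seg hj
  obtain ⟨R, hr, h10, h1⟩ : ∃ R, r ≤ R ∧ 10 ≤ R ∧ s 1 ≤ R := ⟨r + 10 + s 1, by omega, by omega, by omega⟩
  obtain ⟨D, hD⟩ : ∃ D, D = (2 * r + 1) * (65 * (4 * r + 2)) := ⟨_, rfl⟩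
  have D0 : 0 < D := by rw [hD]; positivity
  have D1 : (0 : ℝ) < D := by exact_mod_cast D0
  obtain ⟨A, hA⟩ : ∃ A : ℝ, A = 2 * D * (2 * (128 + 240 * (R + 4 * r + 4))) := ⟨_, rfl⟩
  obtain ⟨B, hB⟩ : ∃ B : ℝ, B = 2 * D * (2 * A + 2 * (R + 4 * r + 4)) := ⟨_, rfl⟩
  have A0 : 0 < A := by rw [hA]; positivity
  have B0 : 0 < B := by rw [hB]; positivity
  obtain ⟨Λ, hΛ⟩ := exists_pow_lt_of_lt_one (show 0 < 1 / (8 * (3 * A + B + 128)) by positivity)
    (show (1 / 2 : ℝ) < 1 by norm_num)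
  rw [lt_div_iff₀ (by positivity)] at hΛ
  have η0 : (0 : ℝ) < (1 / 2) ^ Λ := by positivity
  have η1 := mul_pos A0 η0
  have η2 := mul_pos B0 η0
  obtain ⟨Δ, hΔ⟩ : ∃ Δ, Δ = (4 * r + 1) * Λ + (4 * r + 3) := ⟨_, rfl⟩
  obtain ⟨G, hG⟩ : ∃ G, G = 2 * D * (14 * (2 ^ Δ *
    ((32 * r + 39) * 2 ^ (4 * r + 3) + (R + 4 * r + 4)))) := ⟨_, rfl⟩
  refine ⟨G + (32 * r + 39) * 2 ^ (Δ + 2), Δ + R + 3, by positivity, fun T => ?_⟩
  have hex : ∃ K, T < s (K + 1) := ⟨T, by have := hS.add 0 (T + 1); rw [zero_add] at this; omega⟩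
  have k1 := Nat.find_spec hex
  have k2 : s (Nat.find hex) ≤ T := by
    rcases h : Nat.find hex with _ | K
    · rw [hS.zero]; omega
    · exact not_lt.1 (Nat.find_min hex (by omega))
  generalize Nat.find hex = K at *
  have a1 := main_ind hN hS hr h10 h1 k2 hD (Λ := Λ) (α := A * (1 / 2) ^ Λ) (β := B * (1 / 2) ^ Λ)
    (Γ := G * gn ω T) rfl (le_of_eq (by rw [hA]; field_simp)) (le_of_eq (by rw [hB]; field_simp))
    (by linarith) (le_of_eq (by rw [hG, ← hΔ]; push_cast; field_simp)) K 0 rfl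
  rw [Nat.zero_div, add_zero, ← hΔ, pow_zero, mul_one, mul_one, mul_one] at a1
  have m3 : Λ ≤ (4 * r + 1) * Λ := Nat.le_mul_of_pos_left _ (by omega)
  obtain ⟨i, c1, c2, k', c, -, -, -, c3, c4⟩ := a1.run hN hS hr h10 h1 (Λ := Λ) (Δ := Δ) le_rfl
    (by omega) (by omega) (by omega) η1.le η2.le (by linarith)
  rw [min_eq_right k1.le] at c1 c2 c4
  refine ⟨i, by omega, (c3.growth (by linarith)).trans (Nat.cast_le.2 (growth_mono ω ?_))⟩
  have a2 : gn ω T * 2 ^ i ≤ lenSum ω T := by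
    unfold gn
    rw [div_mul_eq_mul_div, div_le_iff₀ (by positivity)]
    exact mul_le_mul_of_nonneg_left (pow_le_pow_right₀ (by norm_num) (by omega)) (by positivity)
  have a3 := mul_le_mul_of_nonneg_left a2
    (show (0 : ℝ) ≤ G + (32 * r + 39) * 2 ^ (Δ + 2) by positivity)
  rw [cv_end] at c4
  have : (c : ℝ) ≤ (G + (32 * r + 39) * 2 ^ (Δ + 2)) * lenSum ω T := by linarith
  exact_mod_cast this

theorem lower (hN : Near j r ω) (hj : ∀ n, ∃ m, n ≤ m ∧ ω m ≠ j) :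
    Prec (model ω) (growth (gens ω)) := by
  obtain ⟨C, t, hC, hg⟩ := growth_ge hN hj
  refine ⟨C * 3 ^ (t + 3), by positivity, fun n => ?_⟩
  rw [model_eq]
  rcases Nat.eq_zero_or_pos (kap ω n) with h0 | h0
  · rw [h0]; simpa using growth_pos ω _
  obtain ⟨k, hk⟩ : ∃ k, kap ω n = k + 1 := ⟨kap ω n - 1, by omega⟩
  have a1 := (kap_spec ω n k).2 (by omega)
  have a2 := lenSum_three_pow ω k (t + 3)
  have a3 : C * lenSum ω (k + (t + 3)) ≤ C * 3 ^ (t + 3) * n := by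
    rw [mul_assoc]
    exact Nat.mul_le_mul_left _ (a2.trans (Nat.mul_le_mul_left _ a1))
  refine le_trans ?_ (growth_mono ω a3)
  obtain ⟨i, a4, a5⟩ := hg (k + (t + 3))
  have a6 : ((2 ^ (2 ^ (k + 1)) : ℕ) : ℝ) ≤ Real.exp (2 ^ i / 4) := by
    have : ((2 ^ (2 ^ (k + 1)) : ℕ) : ℝ) = Real.exp (((2 ^ (k + 1) : ℕ) : ℝ) * Real.log 2) := by
      rw [Real.exp_nat_mul, Real.exp_log (by norm_num)]; push_cast; rfl
    rw [this, Real.exp_le_exp]
    push_cast
    have b1 : (0 : ℝ) < 2 ^ k := by positivity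
    have := mul_le_mul_of_nonneg_left Real.log_two_lt_d9.le b1.le
    have b2 : (2 : ℝ) ^ (k + 3) ≤ 2 ^ i := pow_le_pow_right₀ (by norm_num) (by omega)
    rw [pow_add] at b2 ⊢
    linarith
  rw [hk]
  exact (Nat.pow_le_pow_right (by norm_num) (Nat.sub_le _ _)).trans (by exact_mod_cast a6.trans a5)

end Pool.Agent.MP_fbbd83_al.St
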