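import Pool.Agent.MP_fbbd83_al.Pl.Probe

/-! Elements whose sections are a fixed short commutator on one quarter of the vertices. -/

namespace Pool.Agent.MP_fbbd83_al.St

open Pl

/-- parity of the number of letters `0` -/
def ty : Vx → Bool
  | [] => false
  | x :: u => xor (!x) (ty u)

theorem ty_snoc (u : Vx) (δ : Bool) : ty (u ++ [δ]) = xor (ty u) (!δ) := by
  induction u with
  | nil => simp [ty]
  | cons x u ih => simp only [List.cons_append, ty, ih]; cases x <;> cases ty u <;> cases δ <;> rfl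

theorem lift_ty (n : ℕ) : ∀ (ω : ℕ → Fin 3) (l : List (Fin 3)) (u : Vx), u.length = n → ∀ v,
    run ω (pw (Zw n ω (l ++ l))) (u ++ v) =
      u ++ fl (ty u) (run (sh n ω) (pw (l ++ l)) (fl (ty u) v)) := by
  induction n with
  | zero =>
    intro ω l u hu v
    rw [List.length_eq_zero_iff.1 hu]; rfl
  | succ n ih =>
    intro ω l u hu v
    have ih := ih (shift ω) l
    have he : ev (ω 0) (Zw n (shift ω) (l ++ l)) = false := by rw [Zw_append, ev_append]; simp
    cases u with
    | nil => simp at hu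
    | cons x u =>
      have hu' : u.length = n := by simpa using hu
      simp only [Zw, List.cons_append, zeta_run, he, Bool.xor_false, ← sh_shift]
      cases x
      · cases u with
        | nil =>
          have := ih [] hu' (flipFun v)
          simp only [List.nil_append] at this
          simp [fl, ty] at this ⊢
          rw [this]
        | cons y u =>
          have := ih ((!y) :: u) (by simpa using hu') v
          simp only [List.cons_append] at this
          simp only [fl, Bool.not_false, if_true, List.cons_append, flipFun_cons] at this ⊢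
          rw [this, flipFun_cons]
          cases y <;> simp [ty]
      · have := ih u hu' v
        simp only [fl] at this
        simp [fl, ty, this]

theorem secW_ty (ω : ℕ → Fin 3) (n : ℕ) (l : List (Fin 3)) (u : Vx) (hu : u.length = n) :
    (evT ω (pw (Zw n ω (l ++ l)))).1 u = u ∧ SecW ω n (evT ω (pw (Zw n ω (l ++ l)))) u
      (if ty u then none :: (pw (l ++ l) ++ [none]) else pw (l ++ l)) := by
  have e : ∀ v, (evT ω (pw (Zw n ω (l ++ l)))).1 v = run ω (pw (Zw n ω (l ++ l))) v :=
    evP_apply ω _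
  have h2 : (evT ω (pw (Zw n ω (l ++ l)))).1 u = u := by
    have := lift_ty n ω l u hu []
    rw [List.append_nil] at this
    rw [e, this]
    cases ty u <;> simp [fl, flipFun, run_nil]
  refine ⟨h2, fun v => ?_⟩
  rw [h2, e, lift_ty n ω l u hu]
  cases ty u <;> simp [fl, run, run_append, letFun]

variable (ω : ℕ → Fin 3) in
/-- the section is `w` on the class `C` and trivial elsewhere -/
def Prb (w : Word) (M : ℕ) (C : Vx → Prop) (e : Tr) : Prop :=
  ∀ u : Vx, u.length = M → e.1 u = u ∧ (C u → SecW ω M e u w) ∧ (¬ C u → SecW ω M e u [])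

variable {ω : ℕ → Fin 3}

theorem sq_conj (ω : ℕ → Fin 3) {s : Fin 3} (hs : inact (ω 0) = s) (b : Bool) (v : Vx) :
    fl b (run ω (pw ([s] ++ [s])) (fl b v)) = run ω [none, some s, none, some s] v := by
  cases b
  · rfl
  · rw [← evP_apply ω [none, some s, none, some s], az_comm ω hs, evP_apply]
    simp [fl, pw, run, letFun, flipFun_invol v]

theorem prb_first (ω : ℕ → Fin 3) {n : ℕ} {s : Fin 3} (hs : inact (ω n) = s) :
    ∃ e, Prb ω [none, some s, none, some s] n (fun _ => True) e ∧ InBall ω (2 * lenSum ω n) e.1 := by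
  refine ⟨evT ω (pw (Zw n ω ([s] ++ [s]))), fun u hu => ?_, _, ?_, rfl⟩
  · have h1 := (secW_ty ω n [s] u hu).1
    refine ⟨h1, fun _ v => ?_, fun h => absurd trivial h⟩
    rw [h1, ← sq_conj (sh n ω) (by rwa [sh_apply_zero]) (ty u), ← lift_ty n ω [s] u hu]
    exact evP_apply ω _ _
  · have := ell_tri ω n s
    rw [length_pw, Zw_append, List.length_append, length_Zw]; omega

theorem length_shift {ρ : ℕ} (hρ : ∀ k s, lenSum ω k ≤ ρ * ell ω k s) (k n : ℕ) (z : Fin 3) :
    2 * ((Zw n (sh (k + 1) ω) [z]).length * lenSum ω k) ≤ ρ * ell ω (k + 1 + n) z := by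
  rw [← length_Zw, Zw_add, length_Zw_list (k + 1)]
  generalize Zw n (sh (k + 1) ω) [z] = l
  induction l with
  | nil => simp
  | cons s l ih =>
    have h1 := hρ k s
    have h2 := Nat.mul_le_mul_left ρ (ell_two ω k s)
    simp only [List.map_cons, List.sum_cons, List.length_cons]
    nlinarith

theorem prb_later {ρ : ℕ} (hρ : ∀ k s, lenSum ω k ≤ ρ * ell ω k s) {z0 s u : Fin 3} {k m n : ℕ}
    (h0 : inact (ω k) = z0) (hrun : ∀ t < m, inact (ω (k + 1 + t)) = z0)
    (hu : inact (ω (k + 1 + m)) = u) (hne : u ≠ z0) (hmn : m < n)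
    (hs : inact (ω (k + 1 + n)) = s) :
    ∃ e, Prb ω [none, some s, none, some s] (k + 1 + n) (fun v => ty (v.take (k + 1)) = false) e ∧
      InBall ω (ρ * lenSum ω (k + 1 + n)) e.1 := by
  set l := Zw n (sh (k + 1) ω) [s] with hl
  set W := pw (Zw n (sh (k + 1) ω) ([s] ++ [s])) with hW
  set e := evT ω (pw (Zw k ω (xi u l ++ xi u l))) with he
  have hc : col (ω k) u = true := by rw [col_iff, h0]; exact hne
  have e1 : xi u l ++ xi u l = xi u (Zw n (sh (k + 1) ω) ([s] ++ [s])) := by
    rw [Zw_append, xi_append]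
  obtain ⟨x1, x2, x3⟩ := sec_xi hc (Zw n (sh (k + 1) ω) ([s] ++ [s]))
  have x4 := rw0_trivial (i := ω k) (sh (k + 1) ω) h0
    (fun t ht => by rw [← hrun t ht]; simp only [sh]; congr 2; ring)
    (by rw [← hu]; simp only [sh]; congr 2; ring) hne n hmn s
  have key : ∀ (y : Vx) (δ : Bool), y.length = k → e.1 (y ++ [δ]) = y ++ [δ] ∧
      (ty (y ++ [δ]) = false → SecW ω (k + 1) e (y ++ [δ]) W) ∧
      (¬ ty (y ++ [δ]) = false → SecW ω (k + 1) e (y ++ [δ]) []) := by
    intro y δ hy
    obtain ⟨s1, s2⟩ := secW_ty ω k (xi u l) y hy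
    rw [← he] at s1 s2
    rw [e1] at s2
    rw [ty_snoc]
    cases h : ty y
    · simp only [h, Bool.false_eq_true, if_false] at s2
      refine ⟨by rw [tree_step, s1, s2.act, x1]; simp, fun h1 => ?_, fun h1 => ?_⟩
      · obtain rfl : δ = true := by simpa using h1
        refine (s2.step true).congr fun v => ?_
        rw [run_red, x2]
      · obtain rfl : δ = false := by simpa using h1
        refine (s2.step false).congr fun v => ?_
        rw [run_red, x3, ← evP_apply, x4]; rfl
    · simp only [h, if_true] at s2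
      refine ⟨by rw [tree_step, s1, s2.act]; simp only [par, par_append, x1]; simp,
        fun h1 => ?_, fun h1 => ?_⟩
      · obtain rfl : δ = false := by simpa using h1
        refine (s2.step false).congr fun v => ?_
        rw [run_red]
        simp only [sec, sec_append, Bool.not_false, x2, List.append_nil, hW]
      · obtain rfl : δ = true := by simpa using h1
        refine (s2.step true).congr fun v => ?_
        rw [run_red]
        simp only [sec, sec_append, Bool.not_true, x3, List.append_nil]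
        rw [← evP_apply, x4]; rfl
  refine ⟨e, fun v hv => ?_, ⟨_, ?_, rfl⟩⟩
  · obtain ⟨y, δ, v', hy, rfl⟩ : ∃ y δ v', y.length = k ∧ v = (y ++ [δ]) ++ v' := by
      obtain ⟨y, δ, v', hy, rfl⟩ := split_at v k (by omega)
      exact ⟨y, δ, v', hy, by simp⟩
    have hv' : v'.length = n := by simp at hv; omega
    obtain ⟨k1, k2, k3⟩ := key y δ hy
    simp only [List.take_left' (show (y ++ [δ]).length = k + 1 by simp [hy])]
    have es : sh n (sh (k + 1) ω) = sh (k + 1 + n) ω := by
      funext j; simp only [sh]; congr 1; ring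
    by_cases hδ : ty (y ++ [δ]) = false
    · have r : ∀ w, e.1 (y ++ [δ] ++ v' ++ w) =
          y ++ [δ] ++ v' ++ run (sh (k + 1 + n) ω) [none, some s, none, some s] w := by
        intro w
        rw [List.append_assoc, k2 hδ, k1, hW, lift_ty n _ [s] v' hv', es,
          sq_conj _ (by rwa [sh_apply_zero]), List.append_assoc (y ++ [δ])]
      have e4 : e.1 (y ++ [δ] ++ v') = y ++ [δ] ++ v' := by simpa [run_nil] using r []
      exact ⟨e4, fun _ w => by rw [e4, r], fun h => absurd hδ h⟩
    · have e4 : e.1 (y ++ [δ] ++ v') = y ++ [δ] ++ v' := by rw [k3 hδ, k1]; rfl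
      refine ⟨e4, fun h => absurd h hδ, fun _ w => ?_⟩
      rw [e4, List.append_assoc, k3 hδ, k1]; simp [run]
  · rw [length_pw, Zw_append, List.length_append, length_Zw_list]
    have h1 := sum_xi (ell ω k) (lenSum ω k) (ell_tri ω k) u l
    have h2 := length_shift hρ k n s
    have h3 := Nat.mul_le_mul_left ρ (ell_tri ω (k + 1 + n) s)
    rw [← hl] at h2
    nlinarith

theorem Prb.step {s : Fin 3} {n : ℕ} {C C' : Vx → Prop} {e : Tr} (hs : inact (ω n) = s)
    (h : Prb ω [none, some s, none, some s] n C e)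
    (hC : ∀ (y : Vx) (δ : Bool), y.length = n → (C' (y ++ [δ]) ↔ C y)) :
    Prb ω [some s] (n + 1) C' e := by
  intro u hu
  obtain ⟨y, δ, rfl⟩ : ∃ y δ, u = y ++ [δ] := by
    have : u ≠ [] := by rintro rfl; simp at hu
    exact ⟨_, _, (List.dropLast_append_getLast this).symm⟩
  have hy : y.length = n := by simpa using hu
  obtain ⟨h1, h2, h3⟩ := h y hy
  rw [hC y δ hy]
  refine ⟨?_, fun hc => ?_, fun hc => (h3 hc).step δ⟩
  · by_cases hc : C y
    · rw [tree_step, h1, (h2 hc).act]; simp [par]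
    · rw [tree_step, h1, (h3 hc).act]; simp [par]
  · have := (h2 hc).step δ
    rwa [red_sec_pure hs] at this

def Eq2 (i : Fin 3) (w w' : Word) : Prop :=
  par w = par w' ∧ (∀ δ, par (red (sec i w δ)) = par (red (sec i w' δ))) ∧
    ∀ δ δ', red (sec i (red (sec i w δ)) δ') = red (sec i (red (sec i w' δ)) δ')

instance (i : Fin 3) (w w' : Word) : Decidable (Eq2 i w w') := by unfold Eq2; infer_instance

theorem inact_inj {i i' : Fin 3} (h : inact i = inact i') : i = i' := by
  revert i i'; decide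

theorem evP_eq2 {M : ℕ} (h1 : inact (ω (M + 1)) = inact (ω M)) {w w' : Word}
    (h : Eq2 (ω M) w w') : evP (sh M ω) w = evP (sh M ω) w' := by
  have e0 : sh M ω 0 = ω M := sh_apply_zero M ω
  have e1 : shift (sh M ω) 0 = ω M := by
    rw [shift_sh, sh_apply_zero]; exact inact_inj h1
  ext1 v
  rw [evP_apply, evP_apply]
  refine run_ext _ h.1 (fun δ v => ?_) v
  rw [e0, ← run_red, ← run_red _ (sec (ω M) w' δ)]
  refine run_ext _ (h.2.1 δ) (fun δ' v => ?_) v
  rw [e1, ← run_red, h.2.2, run_red]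

/-- the commutator of `f` and `a z a` -/
def ew (f z : Fin 3) : Word := [some f, none, some z, none, some f, none, some z, none]

theorem prb_comm {f z : Fin 3} {M : ℕ} {C C' : Vx → Prop} {F Z : Tr} (h0 : inact (ω M) = z)
    (h1 : inact (ω (M + 1)) = z) (hf : f ≠ z) (hF : Prb ω [some f] M C F)
    (hZ : Prb ω [none, some z, none, some z] M C' Z) :
    Prb ω (ew f z) M (fun v => C' v ∧ C v) (Z * (F * (Z * F))) := by
  intro u hu
  obtain ⟨a1, a2, a3⟩ := hF u hu
  obtain ⟨b1, b2, b3⟩ := hZ u hu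
  have key : ∀ w w', SecW ω M F u w → SecW ω M Z u w' →
      SecW ω M (Z * (F * (Z * F))) u (w ++ w' ++ w ++ w') := fun w w' h h' =>
    ((h.mul (by rwa [a1])).mul (by rwa [tr_mul, a1, b1])).mul (by rwa [tr_mul, tr_mul, a1, b1, a1])
  have e1 : ∀ i f : Fin 3, f ≠ inact i →
      Eq2 i ([some f] ++ [none, some (inact i), none, some (inact i)] ++ [some f] ++
        [none, some (inact i), none, some (inact i)]) (ew f (inact i)) := by decide
  have e2 : ∀ i : Fin 3, Eq2 i ([] ++ [none, some (inact i), none, some (inact i)] ++ [] ++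
        [none, some (inact i), none, some (inact i)]) [] := by decide
  subst h0
  refine ⟨by simp only [tr_mul, a1, b1], fun hc => (key _ _ (a2 hc.2) (b2 hc.1)).congrP ?_,
    fun hc => ?_⟩
  · exact evP_eq2 h1 (e1 _ _ hf)
  · by_cases c1 : C u <;> by_cases c2 : C' u
    · exact absurd ⟨c2, c1⟩ hc
    · refine (key _ _ (a2 c1) (b3 c2)).congrP ?_
      simp [evP, letP_sq]
    · refine (key _ _ (a3 c1) (b2 c2)).congrP ?_
      exact evP_eq2 h1 (e2 _)
    · exact key _ _ (a3 c1) (b3 c2)

/-- the useful class: one of the four grandchildren of every vertex of level `P` -/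
def U2 (P : ℕ) (v : Vx) : Prop := ty (v.take (P + 1)) = false ∧ ty (v.take (P + 2)) = false

theorem U2_take {P b : ℕ} (h : P + 2 ≤ b) (v : Vx) : U2 P (v.take b) ↔ U2 P v := by
  simp only [U2, List.take_take, min_eq_left h, min_eq_left (show P + 1 ≤ b by omega)]

theorem U2_iff {P : ℕ} {y : Vx} (hy : y.length = P) (δ δ' : Bool) (v : Vx) :
    U2 P (y ++ δ :: δ' :: v) ↔ δ = !ty y ∧ δ' = true := by
  have e1 : (y ++ δ :: δ' :: v).take (P + 1) = y ++ [δ] := by
    rw [show y ++ δ :: δ' :: v = (y ++ [δ]) ++ δ' :: v by simp, List.take_left' (by simp [hy])]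
  have e2 : (y ++ δ :: δ' :: v).take (P + 2) = y ++ [δ] ++ [δ'] := by
    rw [show y ++ δ :: δ' :: v = (y ++ [δ] ++ [δ']) ++ v by simp, List.take_left' (by simp [hy])]
  simp only [U2, e1, e2, ty_snoc]
  cases ty y <;> cases δ <;> cases δ' <;> simp

open Classical in
theorem card_U2 (P t : ℕ) : ((LV (P + 2 + t)).filter (U2 P)).card ≤ 2 ^ (P + t) := by
  rw [Finset.card_filter, show P + 2 + t = P + (t + 1 + 1) by ring, sum_LV_add]
  refine (Finset.sum_le_sum (g := fun _ => 2 ^ t) fun y hy => ?_).trans ?_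
  · simp only [sum_LV_succ, U2_iff (mem_LV.1 hy)]
    cases ty y <;> simp [card_LV]
  · simp [card_LV, pow_add]

theorem probe_first (ω : ℕ → Fin 3) {f z : Fin 3} {P : ℕ} (hf0 : inact (ω P) = f)
    (h0 : inact (ω (P + 1)) = z) (h1 : inact (ω (P + 1 + 1)) = z) (hf : f ≠ z) :
    ∃ e, Prb ω (ew f z) (P + 1) (fun _ => True) e ∧ InBall ω (8 * lenSum ω (P + 1)) e.1 := by
  obtain ⟨F, F1, F2⟩ := prb_first ω hf0
  obtain ⟨Z, Z1, Z2⟩ := prb_first ω h0
  have := prb_comm h0 h1 hf (F1.step hf0 (C' := fun _ => True) (by simp)) Z1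
  simp only [and_self] at this
  refine ⟨_, this, (Z2.mul (F2.mul (Z2.mul F2))).mono ?_⟩
  have := lenSum_two ω P; omega

theorem probe_later {ρ : ℕ} (hρ : ∀ k s, lenSum ω k ≤ ρ * ell ω k s) {f z : Fin 3} {P Q P' : ℕ}
    (hrun : ∀ t, P ≤ t → t < Q → inact (ω t) = z) (hPQ : P + 2 ≤ Q) (hQ : inact (ω Q) ≠ z)
    (hQP : Q < P') (hf0 : inact (ω P') = f) (h0 : inact (ω (P' + 1)) = z)
    (h1 : inact (ω (P' + 1 + 1)) = z) (hf : f ≠ z) :
    ∃ e, Prb ω (ew f z) (P' + 1) (U2 P) e ∧ InBall ω (4 * ρ * lenSum ω (P' + 1)) e.1 := by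
  obtain ⟨m, rfl⟩ := Nat.exists_eq_add_of_le hPQ
  obtain ⟨n, rfl⟩ : ∃ n, P' = P + 1 + 1 + n := ⟨P' - (P + 2), by omega⟩
  obtain ⟨F, F1, F2⟩ := prb_later hρ (k := P + 1) (m := m) (n := n) (hrun _ (by omega) (by omega))
    (fun t ht => hrun _ (by omega) (by omega)) rfl hQ (by omega) hf0
  obtain ⟨Z, Z1, Z2⟩ := prb_later hρ (k := P) (m := m + 1) (n := n + 2) (s := z)
    (u := inact (ω (P + 2 + m))) (hrun _ (by omega) (by omega))
    (fun t ht => hrun _ (by omega) (by omega)) (by congr 2; ring) hQ (by omega)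
    (by rw [← h0]; congr 2; ring)
  rw [show P + 1 + (n + 2) = P + 1 + 1 + n + 1 by ring] at Z1 Z2
  refine ⟨_, prb_comm h0 h1 hf (F1.step hf0 (C' := fun v => ty (v.take (P + 2)) = false)
    fun y δ hy => ?_) Z1, (Z2.mul (F2.mul (Z2.mul F2))).mono ?_⟩
  · rw [List.take_append_of_le_length (by omega)]
  · have := Nat.mul_le_mul_left ρ (lenSum_two ω (P + 1 + 1 + n))
    nlinarith

end Pool.Agent.MP_fbbd83_al.St
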