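import Pool.Agent.MP_fbbd83_al.Pl.ConvT

/-! Inside a long run: spreading lamps by a conjugation, and sweeping by a translation. -/

namespace Pool.Agent.MP_fbbd83_al.St

open Pl Pl.RT

variable {ω : ℕ → Fin 3}

def cj (a : Tr) (X : Lf) : Lf := ⟨a⁻¹ * X.g * a, fun v => X.ka (a.1 v), fun v => X.ks (a.1 v), X.dead⟩

theorem Live.up {b b' M : ℕ} {U : Vx → Prop} (hU : ∀ v : Vx, U (v.take b) ↔ U v) (h : b ≤ b')
    {a : Lf} {p : Path} (hp : Live b M U a p) : Live b' M U a p := by
  obtain ⟨q, q1, q2, q3, q4⟩ := hp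
  refine ⟨q, q1, q2, q3, fun e he => ⟨(q4 e he).1, ?_, (q4 e he).2.2⟩⟩
  rw [← hU, List.take_take, min_eq_left h]
  exact (q4 e he).2.1

theorem cj_ok {x : Fin 3} {b M : ℕ} {U : Vx → Prop} (hb : b ≤ M) {a : Tr} (ha : Good ω x M a)
    (hs : St b a) {X : Lf} {p : Path} (hR : Rep ω x M X) (hL : Live b M U X p) :
    Rep ω x M (cj a X) ∧ Live b M U (cj a X) (rl (fun u => (a⁻¹).1 u) p) := by
  refine ⟨fun v hv => ?_, ?_⟩
  · obtain ⟨w1, a1, a2, a3⟩ := ha v hv
    obtain ⟨w2, b1, b2, b3⟩ := hR (a.1 v) (by rw [tr_len, hv])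
    obtain ⟨w3, c1, c2, c3⟩ := ha.inv ((X.g * a).1 v) (by rw [tr_len, hv])
    refine ⟨w1 ++ w2 ++ w3, ?_, ?_, ?_⟩
    · show SecW ω M (a⁻¹ * X.g * a) v _
      rw [mul_assoc]; exact (a1.mul b1).mul c1
    · simp only [cntA_append, cj]; omega
    · simp only [cB_append, cj]; omega
  · obtain ⟨q, q1, q2, q3, q4⟩ := hL
    refine ⟨rl (fun u => (a⁻¹).1 u) q, q1.map _, by simpa [rl, cj] using q2, fun F => ?_,
      fun e he => ?_⟩
    · have h2 := q3 (fun u => F ((a⁻¹).1 u))
      rw [← sum_level a] at h2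
      simp only [tr_inv_ap] at h2
      simp only [rl, List.map_map]
      exact h2
    · obtain ⟨e', he', rfl⟩ := List.mem_map.1 he
      obtain ⟨h1, h2, h3⟩ := q4 e' he'
      have hl : ((a⁻¹).1 e'.1).length = M := by rw [tr_len, h1]
      refine ⟨hl, by rw [hs.inv.take (by omega)]; exact h2, fun hk => ?_⟩
      show actF (a⁻¹ * X.g * a).1 _ = e'.2
      rw [actF_mul, actF_mul, ha.act hl, tr_ap_inv, ha.inv.act (by rw [tr_len, h1]),
        h3 (by simpa [cj, Lf.k, tr_ap_inv] using hk)]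
      simp

theorem sup_of_cyl {b M : ℕ} (hb : b ≤ M) {t : RT Lf} {μ : ℝ}
    (h1 : ∀ u : Vx, u.length = b → E t (fun a => ∑ v ∈ LV (M - b), (a.ka (u ++ v) : ℝ)) ≤ μ)
    (h2 : ∀ u : Vx, u.length = b → E t (fun a => ∑ v ∈ LV (M - b), (a.ks (u ++ v) : ℝ)) ≤ μ)
    (v : Vx) (hv : v.length = M) : E t (fun a => (a.k v : ℝ)) ≤ 2 * μ := by
  have h3 := add_le_add (h1 (v.take b) (by simp; omega)) (h2 (v.take b) (by simp; omega))
  rw [← E_add, ← two_mul] at h3
  refine (E_mono _ fun a => ?_).trans h3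
  rw [← Finset.sum_add_distrib]
  have := Finset.single_le_sum (s := LV (M - b))
    (f := fun y => (a.ka (v.take b ++ y) : ℝ) + a.ks (v.take b ++ y))
    (fun _ _ => by positivity) (a := v.drop b) (by rw [mem_LV]; simp; omega)
  simpa [Lf.k] using this

theorem spread {x : Fin 3} {b b' P Q : ℕ} {U : Vx → Prop} (hx : inact (ω P) = x) (hb : b ≤ b')
    (hb' : b' ≤ P + 1) (hQ : b' ≤ Q) (hact : ∀ n, b ≤ n → n < b' → col (ω (n - 1)) x = true)
    (hU : ∀ v : Vx, U (v.take b) ↔ U v) {t : RT Lf} {n c : ℕ} {μ σ ι δ : ℝ}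
    (h : Inv ω x b (P + 1) U t n c μ σ ι δ) (hs : All t (fun a _ => St Q a.g)) :
    ∃ t', Inv ω x b' (P + 1) U t' n (c + 2 * lenSum ω b') ((1 / 2) ^ (b' - b) * μ)
      (2 * ((1 / 2) ^ (b' - b) * μ)) ι δ ∧ All t' (fun a _ => St Q a.g) := by
  set ns := List.range' b (b' - b) with hns
  have n2 : ns.Nodup := List.nodup_range'
  have n3 : ∀ k ∈ ns, b ≤ k ∧ k < b' := fun k hk => by
    rw [hns, List.mem_range'_1] at hk; omega
  have ok := jumps_ok (b := b) (r := 0) hx le_rfl ns (fun _ => x) (fun k hk => by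
    have := n3 k hk
    exact ⟨by omega, by omega, by omega, Or.inr (hact k this.1 this.2), by simp⟩)
  have aC : All (cubeT (ns.map (fun n => jumpL ω x n x))) (fun a p => St b a.g ∧
      Good ω x (P + 1) a.g ∧ InBall ω (lenSum ω b') a.g.1 ∧ p = []) :=
    (all_cube _ ok).mono fun a p hp => ⟨hp.1.1,
      good_of_rep hp.1.2.1 (by simpa using hp.1.2.2.1),
      hp.1.2.2.2.2.mono (jumps_cost x ns (fun _ => x) n2 fun k hk => (n3 k hk).2), hp.2⟩
  have lC := forall2_jump x ns (fun _ => x) (fun k hk => Or.inr (hact k (n3 k hk).1 (n3 k hk).2))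
  have hlen : ns.length = b' - b := by simp [hns]
  generalize ns.map (fun n => jumpL ω x n x) = L at aC lC
  have key : ∀ f : Lf → Vx → ℕ, (∀ a X v, f (cj a X) v = f X (a.1 v)) →
      (∀ u : Vx, u.length = b →
        E t (fun a => ∑ v ∈ LV (P + 1 - b), (f a (u ++ v) : ℝ)) ≤ μ) → ∀ u : Vx, u.length = b' →
      E ((cubeT L).bind fun a => t.mp (cj a.g) (fun u => (a.g⁻¹).1 u))
        (fun a => ∑ v ∈ LV (P + 1 - b'), (f a (u ++ v) : ℝ)) ≤ (1 / 2) ^ (b' - b) * μ := by
    intro f hf h1 u hu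
    have e : ∀ (a : Tr) (X : Lf), ∑ v ∈ LV (P + 1 - b'), (f X (a.1 (u ++ v)) : ℝ) =
        ∑ v ∈ LV (P + 1 - b'), (f X (a.1 u ++ v) : ℝ) :=
      fun a X => sum_cyl a u _ (fun y => ((f X y : ℕ) : ℝ))
    simp only [E_bind, E_mp, hf, e]
    rw [E_cubeT L (fun y => E t (fun X => ∑ v ∈ LV (P + 1 - b'), (f X (y ++ v) : ℝ))) u]
    refine (cube_le (b := b) (t := b' - b) lC n2 (fun k hk => by have := n3 k hk; omega) _
      (fun y => E_nonneg _ fun a => by positivity) u (by omega)).trans ?_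
    rw [hlen, ← E_sum]
    apply mul_le_mul_of_nonneg_left _ (by positivity)
    have := h1 (u.take b) (by simp; omega)
    rw [show P + 1 - b = (b' - b) + (P + 1 - b') by omega] at this
    simpa only [sum_LV_add, List.append_assoc] using this
  have hma := key Lf.ka (fun _ _ _ => rfl) h.ma
  have hms := key Lf.ks (fun _ _ _ => rfl) h.ms
  have hall : All ((cubeT L).bind fun a => t.mp (cj a.g) (fun u => (a.g⁻¹).1 u))
      (fun a p => (PW ω x b' (P + 1) U a p ∧ p.length = n ∧
        InBall ω (c + 2 * lenSum ω b') a.g.1) ∧ St Q a.g) := by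
    refine all_bind (aC.mono fun a p ha => all_mp ((h.pw.and hs).mono fun X r hX => ?_))
    obtain ⟨a1, a2, a3, rfl⟩ := ha
    obtain ⟨⟨⟨_, x2, x3⟩, x4, x5⟩, x6⟩ := hX
    obtain ⟨c1, c2⟩ := cj_ok (by omega) a2 a1 x2 x3
    exact ⟨⟨⟨(x6.conj a.g).mono hQ, c1, Live.up hU hb c2⟩, by simpa [rl] using x4,
      (((ball_inv a3).mul x5).mul a3).mono (by omega)⟩, x6.conj a.g⟩
  refine ⟨_, ⟨hall.mono fun _ _ h => h.1, hma, hms, sup_of_cyl hb' hma hms, ?_, ?_⟩,
    hall.mono fun _ _ h => h.2⟩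
  · simp only [E_bind, E_mp]
    refine E_le _ fun a => le_trans (le_of_eq ?_) h.imp
    congr 1; funext X
    exact sum_level a.g _ (fun v => (Qn (X.k v) : ℝ))
  · simp only [E_bind, E_mp]
    exact E_le _ fun a => h.dead

theorem pow_sec {x : Fin 3} {b T : ℕ} (hact : ∀ n, b ≤ n + 1 → n < b + T → col (ω n) x = true)
    (h0 : col (ω (b - 1)) x = true) (s : ℕ) : s ≤ T → ∀ u : Vx, u.length = b + s →
      (jump ω b x ^ 2 ^ s).1 u = u ∧ (SecW ω (b + s) (jump ω b x ^ 2 ^ s) u [none, some x] ∨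
        SecW ω (b + s) (jump ω b x ^ 2 ^ s) u [some x, none]) := by
  induction s with
  | zero => intro _ u hu; simpa using jump_sec (Or.inr h0) u hu
  | succ s ih =>
    intro hs u hu
    obtain ⟨y, δ, rfl⟩ : ∃ y δ, u = y ++ [δ] := by
      have : u ≠ [] := by rintro rfl; simp at hu
      exact ⟨_, _, (List.dropLast_append_getLast this).symm⟩
    obtain ⟨h1, h2⟩ := ih (by omega) y (by simp at hu; omega)
    have hc := hact (b + s) (by omega) (by omega)
    rw [pow_succ, pow_mul, sq, ← add_assoc]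
    generalize jump ω b x ^ 2 ^ s = g at h1 h2
    rcases h2 with h2 | h2
    all_goals
      have h3 := h2.mul (h := g) (by rw [h1]; exact h2)
      refine ⟨by rw [tree_step, h3.act, tr_mul, h1, h1]; simp [par], ?_⟩
      have h4 := h3.step δ
      cases δ <;> simp [sec, hc, red, push] at h4 <;> simp [h4]

theorem E_congr_all {t : RT Lf} {f g : Lf → ℝ} (h : All t (fun a _ => f a = g a)) :
    E t f = E t g :=
  le_antisymm (E_mono_all (h.mono fun _ _ h => h.le)) (E_mono_all (h.mono fun _ _ h => h.ge))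

theorem E_eq_all {t : RT Lf} {f : Lf → ℝ} {c : ℝ} (h : All t (fun a _ => f a = c)) : E t f = c :=
  (E_congr_all (g := fun _ => c) h).trans (E_const t c)

theorem sweep {x : Fin 3} {b T P : ℕ} {U : Vx → Prop} (hx : inact (ω P) = x) (hb : b ≤ P)
    (hT : b + T ≤ P + 1) (hact : ∀ n, b ≤ n + 1 → n < b + T → col (ω n) x = true)
    (h0 : col (ω (b - 1)) x = true) (hU : ∀ v : Vx, U (v.take b) ↔ U v) {t : RT Lf} {n c : ℕ}
    {μ σ ι δ : ℝ} (h : Inv ω x b (P + 1) U t n c μ σ ι δ) (hs : All t (fun a _ => St (b + T) a.g)) :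
    ∃ t', Inv ω x (b + T) (P + 1) U t' (2 ^ T * n) (2 ^ T * (c + lenSum ω b)) μ (2 * μ)
      (2 ^ T * ι + 8 * μ ^ 2 * 2 ^ (b + T)) (2 ^ T * δ) := by
  have hM : b ≤ P + 1 := by omega
  have ps := pow_sec hact h0
  have main : ∀ s, s ≤ T → ∃ t' : RT Lf, All t' (fun a p => PW ω x b (P + 1) U a p ∧
      p.length = 2 ^ s * n ∧ InBall ω (2 ^ s * (c + lenSum ω b)) a.g.1 ∧
        ∀ v : Vx, v.length = b + T → a.g.1 v = (jump ω b x ^ 2 ^ s).1 v) ∧
      (∀ u : Vx, u.length = b + s →
        E t' (fun a => ∑ v ∈ LV (P + 1 - (b + s)), (a.ka (u ++ v) : ℝ)) ≤ μ) ∧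
      (∀ u : Vx, u.length = b + s →
        E t' (fun a => ∑ v ∈ LV (P + 1 - (b + s)), (a.ks (u ++ v) : ℝ)) ≤ μ) ∧
      E t' (fun a => ∑ v ∈ LV (P + 1), (Qn (a.k v) : ℝ)) ≤ 2 ^ s * ι + 2 * ∑ y ∈ LV (b + T),
        E t' (fun a => ∑ v ∈ LV (P + 1 - (b + T)), (a.k (y ++ v) : ℝ)) ^ 2 ∧
      E t' (fun a => (a.dead : ℝ)) ≤ 2 ^ s * δ := by
    intro s
    induction s with
    | zero =>
      intro _
      have cyl : CylB b (P + 1) (jumpL ω x b x) 0 := by simpa using jumpL_cyl x hb hx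
      have z0 : ∀ v : Vx, v.length = P + 1 →
          (jumpL ω x b x).ka v = 0 ∧ (jumpL ω x b x).ks v = 0 := fun v hv => by
        have := cyl.pt hM v hv
        unfold Lf.k at this; omega
      have pw : PW ω x b (P + 1) U (jumpL ω x b x) [] :=
        ⟨(jump_lev (Or.inr h0)).1, jumpL_rep x (Or.inr h0) hM, Live.nil _ _ _ _⟩
      refine ⟨t.mp (fun a => a.mul (jumpL ω x b x)) id, all_mp ((h.pw.and hs).mono fun a p hp => ?_),
        fun u hu => ?_, fun u hu => ?_, ?_, ?_⟩
      · have e : rl id p = p := by simp [rl]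
        have := hp.1.1.mul hM pw
        rw [e]
        refine ⟨by simpa [rl] using this, by simpa using hp.1.2.1, ?_, fun v hv => ?_⟩
        · rw [pow_zero, one_mul, add_comm]; exact (jump_ball ω b x).mul hp.1.2.2
        · show (jump ω b x).1 (a.g.1 v) = _
          rw [hp.2 v hv]; simp
      · rw [E_mp]
        refine le_trans (E_mono _ fun a => Finset.sum_le_sum fun v hv => ?_) (h.ma u hu)
        simp only [Lf.mul]
        rw [(z0 _ (by rw [tr_len, List.length_append, mem_LV.1 hv]; omega)).1]; simp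
      · rw [E_mp]
        refine le_trans (E_mono _ fun a => Finset.sum_le_sum fun v hv => ?_) (h.ms u hu)
        simp only [Lf.mul]
        rw [(z0 _ (by rw [tr_len, List.length_append, mem_LV.1 hv]; omega)).2]; simp
      · refine le_trans ?_ (le_add_of_nonneg_right (by positivity))
        rw [E_mp, pow_zero, one_mul]
        refine le_trans (E_mono _ fun a => Finset.sum_le_sum fun v hv => ?_) h.imp
        have := z0 (a.g.1 v) (by rw [tr_len, mem_LV.1 hv])
        rw [Lf.k_mul]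
        simp [Lf.k, this.1, this.2]
      · rw [E_mp, pow_zero, one_mul]
        exact le_trans (E_mono _ fun a => by simp [Lf.mul, jumpL, liftL]) h.dead
    | succ s ih =>
      intro hsT
      obtain ⟨r, r1, r2, r3, r4, r5⟩ := ih (by omega)
      have sw : ∀ (y : Vx) (d : Bool), y.length = b + s →
          All r (fun a _ => a.g.1 (y ++ [d]) = y ++ [!d]) := fun y d hy => r1.mono fun a p hp => by
        have e1 := hp.2.2.2 (y ++ [d] ++ List.replicate (T - s - 1) false) (by simp; omega)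
        have e2 := congrArg (List.take (b + s + 1)) e1
        rw [tr_take, tr_take, List.take_left' (by simp [hy])] at e2
        obtain ⟨p1, p2⟩ := ps s (by omega) y hy
        rw [e2, tree_step, p1]
        rcases p2 with p2 | p2 <;> rw [p2.act] <;> simp [par]
      have key : ∀ f : Lf → Vx → ℕ, (∀ a X u, f (a.mul X) u = f a u + f X (a.g.1 u)) →
          (∀ u : Vx, u.length = b + s →
            E r (fun a => ∑ v ∈ LV (P + 1 - (b + s)), (f a (u ++ v) : ℝ)) ≤ μ) →
          ∀ u : Vx, u.length = b + (s + 1) → E (prod r r)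
            (fun a => ∑ v ∈ LV (P + 1 - (b + (s + 1))), (f a (u ++ v) : ℝ)) ≤ μ := by
        intro f hf h1 u hu
        obtain ⟨y, d, rfl⟩ : ∃ y d, u = y ++ [d] := by
          have : u ≠ [] := by rintro rfl; simp at hu
          exact ⟨_, _, (List.dropLast_append_getLast this).symm⟩
        have hy : y.length = b + s := by simp at hu; omega
        have h2 := h1 y hy
        rw [show P + 1 - (b + s) = (P + 1 - (b + (s + 1))) + 1 by omega] at h2
        simp only [sum_LV_succ, E_add] at h2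
        rw [E_prod]
        simp only [hf, Nat.cast_add, Finset.sum_add_distrib, E_add, E_const]
        have e : E r (fun a => E r (fun X => ∑ v ∈ LV (P + 1 - (b + (s + 1))),
            (f X (a.g.1 (y ++ [d] ++ v)) : ℝ))) = E r (fun X =>
              ∑ v ∈ LV (P + 1 - (b + (s + 1))), (f X (y ++ [!d] ++ v) : ℝ)) := by
          refine E_eq_all ((sw y d hy).mono fun a _ ha => ?_)
          congr 1; funext X
          rw [← ha]
          exact sum_cyl a.g _ _ (fun y => ((f X y : ℕ) : ℝ))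
        rw [e]
        cases d <;> simp only [List.append_assoc, List.singleton_append, Bool.not_false,
          Bool.not_true] <;> linarith
      refine ⟨prod r r, all_prod r1 r1 fun a p X q h1 h2 => ⟨h1.1.mul hM h2.1, ?_, ?_, fun v hv => ?_⟩,
        key Lf.ka (fun _ _ _ => rfl) r2, key Lf.ks (fun _ _ _ => rfl) r3, ?_, ?_⟩
      · simp [rl, h1.2.1, h2.2.1]; ring
      · exact (h2.2.2.1.mul h1.2.2.1).mono (le_of_eq (by ring))
      · show X.g.1 (a.g.1 v) = _
        rw [h2.2.2.2 _ (by rw [tr_len, hv]), h1.2.2.2 v hv, pow_succ, pow_mul, sq]; rfl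
      · generalize jump ω b x ^ 2 ^ s = τ at r1
        set p : Vx → ℝ := fun y => E r (fun a => ∑ v ∈ LV (P + 1 - (b + T)), (a.k (y ++ v) : ℝ))
          with hp
        have e1 : ∀ y ∈ LV (b + T), E (prod r r)
            (fun a => ∑ v ∈ LV (P + 1 - (b + T)), (a.k (y ++ v) : ℝ)) = p y + p (τ.1 y) := by
          intro y hy
          rw [E_prod]
          simp only [Lf.k_mul, Nat.cast_add, Finset.sum_add_distrib, E_add, E_const]
          congr 1
          refine E_eq_all (r1.mono fun a _ ha => ?_)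
          rw [← ha.2.2.2 y (mem_LV.1 hy), hp]
          simp only
          congr 1; funext X
          exact sum_cyl a.g _ _ (fun y => ((X.k y : ℕ) : ℝ))
        rw [Finset.sum_congr rfl (fun y hy => by rw [e1 y hy])]
        have e2 : ∑ y ∈ LV (b + T), (p y + p (τ.1 y)) ^ 2 =
            2 * ∑ y ∈ LV (b + T), p y ^ 2 + 2 * ∑ y ∈ LV (b + T), p (τ.1 y) * p y := by
          rw [two_mul]
          nth_rw 2 [← sum_level τ _ (fun y => p y ^ 2)]
          rw [Finset.mul_sum, ← Finset.sum_add_distrib, ← Finset.sum_add_distrib]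
          exact Finset.sum_congr rfl fun y _ => by ring
        have e3 : All r (fun a _ => E r (fun X => ∑ v ∈ LV (P + 1), (Qn ((a.mul X).k v) : ℝ)) ≤
            ∑ v ∈ LV (P + 1), (Qn (a.k v) : ℝ) + E r (fun X => ∑ v ∈ LV (P + 1), (Qn (X.k v) : ℝ)) +
              ∑ y ∈ LV (b + T), 4 * p (τ.1 y) * ∑ v ∈ LV (P + 1 - (b + T)), (a.k (y ++ v) : ℝ)) := by
          refine r1.mono fun a _ ha => ?_
          have h2 : ∀ X : Lf, ∑ v ∈ LV (P + 1), (Qn ((a.mul X).k v) : ℝ) ≤
              ∑ v ∈ LV (P + 1), (Qn (a.k v) : ℝ) + ∑ v ∈ LV (P + 1), (Qn (X.k v) : ℝ) +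
                ∑ v ∈ LV (P + 1), (4 * a.k v : ℝ) * X.k (a.g.1 v) := by
            intro X
            rw [← sum_level a.g _ (fun v => (Qn (X.k v) : ℝ)), ← Finset.sum_add_distrib,
              ← Finset.sum_add_distrib]
            refine Finset.sum_le_sum fun v _ => ?_
            rw [Lf.k_mul]
            have := Qn_add (a.k v) (X.k (a.g.1 v))
            rw [mul_assoc]
            exact_mod_cast this
          refine (E_mono r h2).trans ?_
          rw [E_add, E_add, E_const,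
            E_sum r (LV (P + 1)) (fun v X => (4 * a.k v : ℝ) * X.k (a.g.1 v))]
          refine add_le_add le_rfl ?_
          conv_lhs => rw [show P + 1 = (b + T) + (P + 1 - (b + T)) by omega, sum_LV_add]
          refine Finset.sum_le_sum fun y hy => ?_
          rw [Finset.mul_sum]
          refine Finset.sum_le_sum fun v hv => ?_
          rw [E_mul]
          have h3 : E r (fun X => (X.k (a.g.1 (y ++ v)) : ℝ)) ≤ p (τ.1 y) := by
            obtain ⟨v', v1, v2⟩ := tr_append a.g y v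
            rw [v2, ha.2.2.2 y (mem_LV.1 hy)]
            exact E_mono _ fun X => Finset.single_le_sum
              (f := fun v => (X.k (τ.1 y ++ v) : ℝ)) (fun _ _ => by positivity)
              (by rw [mem_LV, v1, mem_LV.1 hv])
          have h4 : (0 : ℝ) ≤ 4 * a.k (y ++ v) := by positivity
          nlinarith
        rw [E_prod, e2]
        refine (E_mono_all e3).trans ?_
        rw [E_add, E_add, E_const, E_sum r (LV (b + T)) (fun y a => 4 * p (τ.1 y) *
          ∑ v ∈ LV (P + 1 - (b + T)), (a.k (y ++ v) : ℝ))]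
        simp only [E_mul]
        have e4 : ∑ y ∈ LV (b + T), 4 * p (τ.1 y) * p y = 4 * ∑ y ∈ LV (b + T), p (τ.1 y) * p y := by
          rw [Finset.mul_sum]; exact Finset.sum_congr rfl fun y _ => by ring
        rw [pow_succ]
        linarith
      · rw [E_prod]
        simp only [Lf.mul, Nat.cast_add, E_add, E_const]
        rw [pow_succ]; linarith
  obtain ⟨r, r1, r2, r3, r4, r5⟩ := main T le_rfl
  refine ⟨r, r1.mono fun a p hp => ⟨⟨fun u hu => ?_, hp.1.2.1, Live.up hU (by omega) hp.1.2.2⟩,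
    hp.2.1, hp.2.2.1⟩, r2, r3, sup_of_cyl hT r2 r3, r4.trans ?_, r5⟩
  · rw [hp.2.2.2 u hu, (ps T le_rfl u hu).1]
  · have : ∑ y ∈ LV (b + T), E r (fun a => ∑ v ∈ LV (P + 1 - (b + T)), (a.k (y ++ v) : ℝ)) ^ 2 ≤
        ∑ y ∈ LV (b + T), (2 * μ) ^ 2 := by
      refine Finset.sum_le_sum fun y hy => pow_le_pow_left₀ (E_nonneg _ fun a => by positivity) ?_ 2
      have h1 := r2 y (mem_LV.1 hy)
      have h2 := r3 y (mem_LV.1 hy)
      simp only [Lf.k, Nat.cast_add, Finset.sum_add_distrib, E_add]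
      linarith
    simp only [Finset.sum_const, card_LV, nsmul_eq_mul, Nat.cast_pow, Nat.cast_ofNat] at this
    nlinarith

end Pool.Agent.MP_fbbd83_al.St
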