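import Pool.Agent.MP_fbbd83_al.St.Bad
import Pool.Agent.MP_fbbd83_al.St.Cv
import Pool.Agent.MP_fbbd83_al.St.Sw

/-! The stages of the construction: doubling steps and passages through long runs. -/

namespace Pool.Agent.MP_fbbd83_al.St

open Pl Pl.RT

variable {ω : ℕ → Fin 3}

theorem inv_zero {z : Fin 3} {P : ℕ} (hz : inact (ω P) = z) :
    ∃ t, Inv ω z 0 (P + 1) (fun _ => True) t 1 1 1 4 0 0 := by
  have f : ∀ z : Fin 3, z + 1 ≠ z := by decide
  have hc : col (ω P) (z + 1) = true := by rw [col_iff, hz]; exact f z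
  set u0 : Vx := List.replicate P true ++ [false] with hu0
  have hd : dsec ω 0 [some (z + 1)] u0 = [none] := by
    rw [hu0, dsec_append, dsec_true, List.length_replicate, zero_add]
    simp [dsec, sec, hc, red, push]
  have hl : u0.length = P + 1 := by simp [hu0]
  have hk : ∀ g v, (liftL ω z g 0 (fun _ => [some (z + 1)]) 0).k v ≤ 1 := by
    intro g v
    have h1 := length_dsec (ω := ω) v 0 [some (z + 1)] trivial
    have h2 := cnt_le_length z (dsec ω 0 [some (z + 1)] v)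
    have h3 : 0 < 2 ^ v.length := by positivity
    have h4 : (dsec ω 0 [some (z + 1)] v).length - 1 = 0 := by
      by_contra hc
      have := Nat.mul_pos h3 (Nat.pos_of_ne_zero hc)
      simp only [List.length_singleton] at h1; omega
    simp only [Lf.k, liftL, List.drop_zero]; omega
  have hlive : ∀ g ε, actF (g : Tr).1 u0 = ε →
      Live 0 (P + 1) (fun _ => True) (liftL ω z g 0 (fun _ => [some (z + 1)]) 0) [(u0, ε)] := by
    intro g ε hg
    refine ⟨_, List.Sublist.refl _, by simp, fun F => ?_, by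
      simp only [List.mem_singleton, forall_eq]; exact ⟨hl, trivial, fun _ => hg⟩⟩
    have := Finset.single_le_sum (s := LV (P + 1))
      (f := fun u => (liftL ω z g 0 (fun _ => [some (z + 1)]) 0).ka u * F u)
      (fun _ _ => Nat.zero_le _) (mem_LV.2 hl)
    simpa [liftL, hd, cntA] using this
  have hcyl := fun g => liftL_cyl g (fun _ => [some (z + 1)]) 0 (Nat.zero_le P) hz [] rfl
  have hcb : cB z [some (z + 1)] = 1 := by simp [cB, f]
  rw [hcb] at hcyl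
  have s1 := secW_evT ω [some (z + 1)]
  refine ⟨.node (some u0) (.leaf (liftL ω z 1 0 (fun _ => [some (z + 1)]) 0))
    (.leaf (liftL ω z (evT ω [some (z + 1)]) 0 (fun _ => [some (z + 1)]) 0)),
    ⟨⟨⟨St.zero _, liftL_rep 0 (by omega) fun u _ => Or.inr (SecW.one 0 u), hlive _ _ ?_⟩, rfl,
      InBall.one ω 1⟩, ⟨St.zero _, liftL_rep 0 (by omega) fun u hu => Or.inl ?_, hlive _ _ ?_⟩, rfl,
      ⟨_, le_rfl, rfl⟩⟩, fun u hu => E_le_all ⟨?_, ?_⟩, fun u hu => E_le_all ⟨?_, ?_⟩,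
      fun v _ => E_le_all ⟨?_, ?_⟩, E_le_all ⟨?_, ?_⟩, E_le_all ⟨?_, ?_⟩⟩
  · exact (SecW.one (ω := ω) 0 u0).act
  · rw [List.length_eq_zero_iff.1 hu]; exact s1
  · have := (s1.dsec u0).act
    rw [hd] at this; exact this
  all_goals simp only [All]
  · rw [List.length_eq_zero_iff.1 hu]; norm_num; exact_mod_cast (hcyl _).1
  · rw [List.length_eq_zero_iff.1 hu]; norm_num; exact_mod_cast (hcyl _).1
  · rw [List.length_eq_zero_iff.1 hu]; norm_num; exact_mod_cast (hcyl _).2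
  · rw [List.length_eq_zero_iff.1 hu]; norm_num; exact_mod_cast (hcyl _).2
  · exact_mod_cast (hk _ v).trans (by norm_num)
  · exact_mod_cast (hk _ v).trans (by norm_num)
  · refine le_of_eq (Finset.sum_eq_zero fun v _ => ?_)
    unfold Qn; rw [if_neg (by have := hk 1 v; omega)]; simp
  · refine le_of_eq (Finset.sum_eq_zero fun v _ => ?_)
    unfold Qn; rw [if_neg (by have := hk (evT ω [some (z + 1)]) v; omega)]; simp
  · simp [liftL]
  · simp [liftL]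

open Classical in
variable (ω) in
/-- a random element with `2 ^ i` bits carried by lamps of level `P + 1` -/
def Stg (z : Fin 3) (ρ P : ℕ) (pr : Prop) (i : ℕ) (a g : ℝ) (c : ℕ) : Prop :=
  ∃ (b hb : ℕ) (U : Vx → Prop) (t : RT Lf), hb ≤ b ∧ b ≤ hb + 2 ∧ b ≤ P + 1 ∧
    ((LV b).filter U).card ≤ 2 ^ hb ∧ (∀ v : Vx, U (v.take b) ↔ U v) ∧
    (pr → ∃ e, Prb ω (ew (inact (ω P)) z) (P + 1) U e ∧
      InBall ω (4 * ρ * lenSum ω (P + 1)) e.1) ∧
    Inv ω (inact (ω P)) b (P + 1) U t (2 ^ i) c ((1 + g) * 2 ^ i / 2 ^ hb) (4 + a) (a * 2 ^ i)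
      (g * 2 ^ i)

variable {z : Fin 3} {ρ P w Λ Δ i c : ℕ} {pr : Prop} {a g : ℝ}

theorem Stg.mono (h : Stg ω z ρ P pr i a g c) {a' g' : ℝ} {c' : ℕ} (ha : a ≤ a') (hg : g ≤ g')
    (hc : c ≤ c') : Stg ω z ρ P pr i a' g' c' := by
  obtain ⟨b, hb, U, t, h1, h2, h3, h4, h5, h6, h7⟩ := h
  exact ⟨b, hb, U, t, h1, h2, h3, h4, h5, h6,
    h7.mono hc (by gcongr) (by gcongr) (by gcongr) (by gcongr)⟩

theorem stg_zero (hρ : 2 ≤ ρ) (hP : inact (ω P) ≠ z)
    (h : pr → inact (ω (P + 1)) = z ∧ inact (ω (P + 1 + 1)) = z) : Stg ω z ρ P pr 0 0 0 1 := by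
  obtain ⟨t, ht⟩ := inv_zero (rfl : inact (ω P) = _)
  refine ⟨0, 0, fun _ => True, t, le_rfl, by omega, by omega, by simp [card_LV], by simp,
    fun hp => ?_, by simpa using ht⟩
  obtain ⟨e, e1, e2⟩ := probe_first ω rfl (h hp).1 (h hp).2 hP
  exact ⟨e, e1, e2.mono (Nat.mul_le_mul_right _ (by omega))⟩

theorem Stg.step (hwin : ∀ t, ∃ t', t ≤ t' ∧ t' < t + w ∧ col (ω t') (inact (ω P)) = true)
    (hΔ : w * (2 * Λ + 2) + 1 ≤ Δ + Λ) (hi : i + Δ ≤ P + 1) (ha : a ≤ 1) (g0 : 0 ≤ g) (hg : g ≤ 1)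
    (h : Stg ω z ρ P pr i a g c) :
    ∃ c', c' = 2 * c + 2 * lenSum ω (i + Δ) ∧
      Stg ω z ρ P pr (i + 1) (a + 240 * (1 / 2) ^ Λ) (g + (1 / 2) ^ Λ) c' := by
  obtain ⟨b, hb, U, t, b1, b2, b3, h4, h5, h6, h7⟩ := h
  obtain ⟨m, hm⟩ : ∃ m, m = max b (i - Λ) := ⟨_, rfl⟩
  obtain ⟨G, hG⟩ : ∃ G, G = i + Λ + 2 - m := ⟨_, rfl⟩
  obtain ⟨κ, hκ⟩ : ∃ κ : ℝ, (m = b ∧ κ = 0) ∨ (i = Λ + m ∧ κ = 1) := by
    by_cases e : m = b
    · exact ⟨0, Or.inl ⟨e, rfl⟩⟩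
    · exact ⟨1, Or.inr ⟨by omega, rfl⟩⟩
  have w1 : 1 ≤ w := by obtain ⟨t', _, _, _⟩ := hwin 0; omega
  have hw : G = 0 ∨ m + w * G < i + Δ := by
    rcases Nat.eq_zero_or_pos G with e | e
    · exact Or.inl e
    obtain ⟨d, hd⟩ : ∃ d, G + d = 2 * Λ + 2 := ⟨2 * Λ + 2 - G, by omega⟩
    have : d ≤ w * d := Nat.le_mul_of_pos_left _ w1
    rw [← hd, mul_add] at hΔ
    omega
  obtain ⟨t', h'⟩ := double (m := m) (G := G) (N := i + Δ) (κ := κ) rfl hwin (by omega) (by omega)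
    (by omega) (hκ.imp id fun e => ⟨by omega, e.2⟩) h7
  set η : ℝ := (1 / 2) ^ Λ with hη
  have η0 : 0 < η := by positivity
  have κ0 : 0 ≤ κ := by rcases hκ with ⟨_, e⟩ | ⟨_, e⟩ <;> simp [e]
  have fA : κ * 2 ^ m ≤ η * 2 ^ i := by
    rcases hκ with ⟨_, e⟩ | ⟨e', e⟩
    · rw [e, zero_mul]; positivity
    · rw [e, e', pow_add, hη, ← mul_assoc, ← mul_pow]; norm_num
  have fB : (1 / 2) ^ G * κ ≤ η := by
    rcases hκ with ⟨_, e⟩ | ⟨e', e⟩
    · rw [e, mul_zero]; positivity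
    · rw [e, mul_one]; exact pow_le_pow_of_le_one (by norm_num) (by norm_num) (by omega)
  have fC : (1 / 2) ^ (G + (m - b)) * (2 ^ i / 2 ^ hb) ≤ η := by
    have : (1 / 2 : ℝ) ^ (G + (m - b) + hb) ≤ (1 / 2) ^ (Λ + i) :=
      pow_le_pow_of_le_one (by norm_num) (by norm_num) (by omega)
    calc _ = (1 / 2 : ℝ) ^ (G + (m - b) + hb) * 2 ^ i := by
          rw [pow_add _ _ hb, one_div, inv_pow 2 hb]; ring
      _ ≤ (1 / 2) ^ (Λ + i) * 2 ^ i := mul_le_mul_of_nonneg_right this (by positivity)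
      _ = η := by rw [pow_add, mul_assoc, ← mul_pow]; norm_num [hη]
  have fE : (2 : ℝ) ^ (m - b) * 2 ^ hb ≤ 2 ^ m := by
    rw [← pow_add]; exact pow_le_pow_right₀ (by norm_num) (by omega)
  have fF : (2 : ℝ) ^ b ≤ 2 ^ hb * 4 := by
    rw [show (4 : ℝ) = 2 ^ 2 by norm_num, ← pow_add]; exact pow_le_pow_right₀ (by norm_num) b2
  have p1 : (0 : ℝ) < 2 ^ i := by positivity
  have p2 : (0 : ℝ) < 2 ^ hb := by positivity
  have γ2 : 1 + g ≤ 2 := by linarith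
  have hτ : (1 / 2) ^ G * (2 * κ) + (1 / 2) ^ (G + (m - b)) * (2 * ((1 + g) * 2 ^ i / 2 ^ hb)) ≤
      6 * η := by
    have := mul_le_mul γ2 fC (by positivity) (by norm_num)
    have e : (1 / 2 : ℝ) ^ (G + (m - b)) * (2 * ((1 + g) * 2 ^ i / 2 ^ hb)) =
      2 * ((1 + g) * ((1 / 2) ^ (G + (m - b)) * (2 ^ i / 2 ^ hb))) := by ring
    linarith
  have hμ : 2 ^ b * ((1 + g) * 2 ^ i / 2 ^ hb) ≤ 8 * 2 ^ i := by
    rw [← mul_div_assoc, div_le_iff₀ p2]
    have := mul_le_mul fF (mul_le_mul_of_nonneg_right γ2 p1.le) (by positivity) (by positivity)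
    linarith
  refine ⟨_, rfl, b, hb, U, t', b1, b2, b3, h4, h5, h6, ?_⟩
  rw [pow_succ' 2 i]
  refine h'.mono le_rfl ?_ (by linarith) ?_ ?_
  · have e1 : κ * 2 ^ (m - b) ≤ η * 2 ^ i / 2 ^ hb := by
      rw [le_div_iff₀ p2, mul_assoc]
      exact (mul_le_mul_of_nonneg_left fE κ0).trans fA
    have e2 : (1 + (g + η)) * 2 ^ (i + 1) / 2 ^ hb =
      2 * ((1 + g) * 2 ^ i / 2 ^ hb) + 2 * (η * 2 ^ i / 2 ^ hb) := by ring
    linarith
  · have a2 := mul_le_mul_of_nonneg_left (show 4 + a ≤ 5 by linarith)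
      (show 0 ≤ κ * 2 ^ m by positivity)
    have a3 := mul_le_mul hμ hτ (by positivity) (by positivity)
    have a5 : 0 ≤ η * 2 ^ i := by positivity
    rw [pow_succ 2 i]
    linarith
  · have a5 : 0 ≤ η * 2 ^ i := by positivity
    rw [pow_succ 2 i]
    linarith

theorem Stg.iter (hwin : ∀ t, ∃ t', t ≤ t' ∧ t' < t + w ∧ col (ω t') (inact (ω P)) = true)
    (hΔ : w * (2 * Λ + 2) + 1 ≤ Δ + Λ) (g0 : 0 ≤ g) (h : Stg ω z ρ P pr i a g c) (n : ℕ) :
    (n = 0 ∨ i + n + Δ ≤ P + 1) → a + 240 * n * (1 / 2) ^ Λ ≤ 1 → g + n * (1 / 2) ^ Λ ≤ 1 →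
      Stg ω z ρ P pr (i + n) (a + 240 * n * (1 / 2) ^ Λ) (g + n * (1 / 2) ^ Λ)
        (2 ^ n * c + n * lenSum ω (i + n + Δ)) := by
  have η0 : (0 : ℝ) < (1 / 2) ^ Λ := by positivity
  induction n with
  | zero => intro _ _ _; simpa using h
  | succ n ih =>
    intro h1 h2 h3
    push_cast at h2 h3 ⊢
    obtain ⟨c', e, h4⟩ := (ih (by omega) (by linarith) (by linarith)).step hwin hΔ (by omega)
      (by linarith) (by positivity) (by linarith)
    refine h4.mono (by linarith) (by linarith) ?_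
    have := lenSum_two ω (i + n + Δ)
    rw [e, show i + (n + 1) + Δ = i + n + Δ + 1 by ring, pow_succ]
    nlinarith

theorem Stg.run (hρ : ∀ k s, lenSum ω k ≤ ρ * ell ω k s) {Q Q' P' : ℕ} {pr' : Prop}
    (hf : inact (ω P) ≠ z) (hrun : ∀ t, P + 1 ≤ t → t < Q' → inact (ω t) = z) (hQ : P + 3 ≤ Q)
    (hQQ : Q ≤ Q') (hQ' : inact (ω Q') ≠ z) (hP' : Q' ≤ P') (hP'' : P + 10 ≤ P')
    (hx : inact (ω P') ≠ z)
    (hpr : pr' → Q' < P' ∧ inact (ω (P' + 1)) = z ∧ inact (ω (P' + 1 + 1)) = z)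
    (hi : i ≤ P + 1) (hi' : P + 1 ≤ i + Δ) (hΛ : Λ ≤ Δ) (a0 : 0 ≤ a) (g0 : 0 ≤ g)
    (hg : g + 2 * a ≤ 1) (h : Stg ω z ρ P True i a g c) :
    Stg ω z ρ P' pr' (i + (Q - (i + Δ + 2))) (a + 128 * (1 / 2) ^ Λ) (g + 2 * a)
      (2 ^ (Q - (i + Δ + 2)) * (2 * c + (8 * ρ + 7) * lenSum ω (min (i + Δ + 2) Q))) := by
  classical
  obtain ⟨b, hb, U, t, b1, b2, b3, h4, h5, h6, h7⟩ := h
  obtain ⟨e, e1, e2⟩ := h6 trivial
  obtain ⟨j, rfl⟩ : ∃ j, P' = P + 1 + 1 + 1 + j := ⟨P' - (P + 3), by omega⟩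
  obtain ⟨R, rfl⟩ : ∃ R, Q = P + 1 + R := ⟨Q - (P + 1), by omega⟩
  obtain ⟨t1, c1, c2⟩ := convert (R := R) b3 rfl (fun t ht => hrun _ (by omega) (by omega))
    (by omega) hf rfl hx (by omega) (by rwa [show (fun u : Vx => U (u.take b)) = U from
      funext fun u => propext (h5 u)]) e2 h4 h7
  obtain ⟨d, hd⟩ : ∃ d, min (i + Δ + 2) (P + 1 + R) = P + 1 + 2 + d :=
    ⟨min (i + Δ + 2) (P + 1 + R) - (P + 3), by omega⟩
  have act : ∀ n, P + 1 ≤ n → n < P + 1 + R → col (ω n) (inact (ω (P + 1 + 1 + 1 + j))) = true :=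
    fun n h1 h2 => by rw [col_iff, hrun n h1 (by omega)]; exact hx
  obtain ⟨t2, d1, d2⟩ := spread (b' := P + 1 + 2 + d) rfl (by omega) (by omega) (by omega)
    (fun n h1 h2 => act _ (by omega) (by omega)) (U2_take (by omega)) c1 c2
  have p1 : (0 : ℝ) < 2 ^ i := by positivity
  have η0 : (0 : ℝ) < (1 / 2) ^ Λ := by positivity
  have eμ : (1 / 2 : ℝ) ^ (P + 1 + 2 + d - (P + 1 + 1 + 1)) * ((1 / 2) ^ (P + 1) *
      (((2 ^ hb : ℕ) : ℝ) * ((1 + g) * 2 ^ i / 2 ^ hb) + 2 * (a * 2 ^ i))) =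
      (1 + (g + 2 * a)) * 2 ^ i / 2 ^ (P + 1 + d) := by
    rw [show P + 1 + 2 + d - (P + 1 + 1 + 1) = d by omega]
    push_cast
    simp only [one_div, inv_pow]
    field_simp; ring
  rw [eμ] at d1
  have hμ : (1 + (g + 2 * a)) * 2 ^ i / 2 ^ (P + 1 + d) ≤ 2 := by
    rw [div_le_iff₀ (by positivity)]
    exact mul_le_mul (by linarith) (pow_le_pow_right₀ (by norm_num) (by omega)) p1.le (by norm_num)
  have hpr' : pr' → ∃ e, Prb ω (ew (inact (ω (P + 1 + 1 + 1 + j))) z) (P + 1 + 1 + 1 + j + 1)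
      (U2 (P + 1)) e ∧ InBall ω (4 * ρ * lenSum ω (P + 1 + 1 + 1 + j + 1)) e.1 := fun hp =>
    probe_later hρ hrun (by omega) hQ' (hpr hp).1 rfl (hpr hp).2.1 (hpr hp).2.2 hx
  have hL := lenSum_mono ω (show P + 1 ≤ P + 1 + 2 + d by omega)
  have hL' := Nat.mul_le_mul_left ρ hL
  rw [hd]
  rcases Nat.eq_zero_or_pos (P + 1 + R - (i + Δ + 2)) with e0 | e0
  · rw [e0]
    refine ⟨P + 1 + 2 + d, P + 1 + d, U2 (P + 1), t2, by omega, by omega, by omega, card_U2 _ _,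
      U2_take (by omega), hpr', d1.mono (by nlinarith) le_rfl (by linarith) ?_ ?_⟩
    · have := mul_pos η0 p1
      rw [add_zero]; linarith
    · have := mul_nonneg a0 p1.le
      rw [add_zero]; linarith
  · generalize hT : P + 1 + R - (i + Δ + 2) = T at *
    have eT : P + 1 + R = P + 1 + 2 + d + T := by omega
    obtain ⟨t3, f1⟩ := sweep (ω := ω) (b := P + 1 + 2 + d) (P := P + 1 + 1 + 1 + j) (T := T) rfl
      (by omega) (by omega)
      (fun n h1 h2 => act _ (by omega) (by omega)) (act _ (by omega) (by omega))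
      (U2_take (by omega)) d1 (eT ▸ d2)
    have p2 : (0 : ℝ) < 2 ^ T := by positivity
    refine ⟨P + 1 + 2 + (d + T), P + 1 + (d + T), U2 (P + 1), t3, by omega, by omega, by omega,
      card_U2 _ _, U2_take (by omega), hpr', ?_⟩
    rw [← add_assoc _ d T, pow_add 2 i T, mul_comm (2 ^ i)]
    refine f1.mono (Nat.mul_le_mul_left _ (by nlinarith)) (le_of_eq ?_) (by linarith) ?_ ?_
    · rw [← add_assoc _ d T, pow_add _ _ T, pow_add _ _ T]; field_simp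
    · have k1 : (1 + (g + 2 * a)) * 2 ^ i / 2 ^ (P + 1 + d) ≤ 2 * (1 / 2) ^ Δ := by
        rw [show P + 1 + d = i + Δ by omega, pow_add, one_div, inv_pow, div_le_iff₀ (by positivity)]
        field_simp; linarith
      have k2 : (1 / 2 : ℝ) ^ Δ ≤ (1 / 2) ^ Λ := pow_le_pow_of_le_one (by norm_num) (by norm_num) hΛ
      have k3 : (1 + (g + 2 * a)) * 2 ^ i / 2 ^ (P + 1 + d) * 2 ^ (P + 1 + 2 + d + T) ≤
          8 * 2 ^ (i + T) := by
        rw [show P + 1 + 2 + d + T = P + 1 + d + (T + 2) by ring, pow_add _ _ (T + 2), pow_add _ i,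
          pow_add _ T]
        field_simp; linarith
      have k4 := mul_le_mul (k1.trans (mul_le_mul_of_nonneg_left k2 (by norm_num))) k3 (by positivity)
        (by positivity)
      rw [pow_add (2 : ℝ) i T] at k4 ⊢
      nlinarith
    · have := mul_nonneg a0 (mul_pos p1 p2).le
      rw [pow_add (2 : ℝ) i T]; linarith

theorem Stg.growth (h : Stg ω z ρ P pr i a g c) (hag : a + g ≤ 1 / 8) :
    Real.exp (2 ^ i / 4) ≤ growth (gens ω) c := by
  obtain ⟨b, hb, U, t, -, -, -, -, -, -, h7⟩ := h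
  refine le_trans (Real.exp_le_exp.2 ?_) (Inv.growth h7)
  have l2 := Real.log_two_lt_d9
  have l4 : Real.log 4 = 2 * Real.log 2 := by
    rw [show (4 : ℝ) = 2 ^ 2 by norm_num, Real.log_pow]; norm_num
  have l8 : 0.43 ≤ Real.log (8 / 5) := by
    have b1 := Real.log_two_gt_d9
    have b2 := Real.log_le_sub_one_of_pos (show (0 : ℝ) < 5 / 4 by norm_num)
    rw [show (8 / 5 : ℝ) = 2 / (5 / 4) by norm_num, Real.log_div (by norm_num) (by norm_num)]
    linarith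
  have p1 : (0 : ℝ) < 2 ^ i := by positivity
  have a1 : a * 2 ^ i + g * 2 ^ i ≤ 1 / 8 * 2 ^ i := by nlinarith
  have a2 := mul_le_mul_of_nonneg_left a1 (Real.log_nonneg (show (1 : ℝ) ≤ 4 by norm_num))
  push_cast
  rw [l4] at a2 ⊢
  nlinarith

end Pool.Agent.MP_fbbd83_al.St
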