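import Pool.Agent.MP_fbbd83_al.St.Main

/-! The upper bound for sequences whose length vectors have comparable entries. -/

namespace Pool.Agent.MP_fbbd83_al.St

variable (ω : ℕ → Fin 3)

theorem growth_le {ρ : ℕ} (h : ∀ k s, lenSum ω k ≤ ρ * ell ω k s) (n K : ℕ) (hK : n ≤ lenSum ω K) :
    growth (gens ω) n ≤ 6 ^ ((4 * ρ + 3) * 2 ^ K) := by
  classical
  rw [growth_eq]
  let wd : Equiv.Perm (List Bool) → Word := fun g =>
    if hg : InBall ω n g then red hg.choose else []
  have hwd : ∀ g, InBall ω n g → Alt (wd g) ∧ (wd g).length ≤ n ∧ ∀ v, run ω (wd g) v = g v := by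
    intro g hg
    simp only [wd, dif_pos hg]
    refine ⟨alt_red _, (length_red _).trans hg.choose_spec.1, fun v => ?_⟩
    rw [run_red, ← evP_apply, hg.choose_spec.2]
  have := ncard_le_of_code {g | InBall ω n g} (fun g => enc ω K 0 (wd g))
    ((4 * ρ + 3) * 2 ^ K) ?_ ?_
  · simpa using this
  · intro g hg g' hg' e
    have := (enc_inj ω K 0 (wd g) (wd g') [] [] (by simpa using e)).1
    ext1 v
    rw [← (hwd g hg).2.2, ← (hwd g' hg').2.2]
    exact this v
  · intro g hg
    obtain ⟨ha, hl, _⟩ := hwd g hg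
    have hmin : ∃ s, ∀ t, ell ω K s ≤ ell ω K t := Finite.exists_min _
    obtain ⟨s, hs⟩ := hmin
    have h1 := enc_length ω K 0 (wd g) (ell ω K s) (by positivity) ha
      (fun t => by rw [zero_add]; exact_mod_cast hs t)
    rw [Q_zero, zero_add] at h1
    have h2 := length_eq_cnt (wd g)
    have h3 : (lenSum ω K : ℤ) ≤ ρ * ell ω K s := by
      exact_mod_cast h K s
    have h4 : (1 : ℤ) ≤ ell ω K s := by exact_mod_cast ell_pos ω K s
    have h5 : (cntS (wd g) : ℤ) + lenSum ω K - lenSum ω 0 ≤ 2 * (ρ * ell ω K s) := by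
      omega
    have h6 : (0 : ℤ) < 2 ^ K := by positivity
    have h7 := mul_le_mul_of_nonneg_left h5 h6.le
    have h8 : (ell ω K s : ℤ) * (enc ω K 0 (wd g)).length ≤
        (ell ω K s : ℤ) * ((4 * ρ + 3) * 2 ^ K) := by nlinarith
    have h9 := le_of_mul_le_mul_left h8 (by omega)
    exact_mod_cast h9

theorem upper {ρ : ℕ} (h : ∀ k s, lenSum ω k ≤ ρ * ell ω k s) :
    Prec (growth (gens ω)) (model ω) := by
  obtain ⟨t, ht⟩ := pow_unbounded_of_one_lt (3 * (4 * ρ + 3)) (show 1 < 2 by norm_num)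
  refine ⟨3 ^ (t + 1), by positivity, fun n => ?_⟩
  rcases Nat.eq_zero_or_pos n with rfl | hn
  · rw [growth_eq]
    have : {g | InBall ω 0 g} = {1} := by
      ext g
      simp only [Set.mem_ofPred_eq, InBall, Set.mem_singleton_iff]
      constructor
      · rintro ⟨w, hw, rfl⟩
        have : w = [] := List.length_eq_zero_iff.1 (by omega)
        subst this; rfl
      · rintro rfl; exact ⟨[], le_rfl, rfl⟩
    rw [this, Set.ncard_singleton, model_eq]
    exact Nat.one_le_two_pow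
  · set K := kap ω n with hKdef
    have h1 : n ≤ lenSum ω K := by
      by_contra hc
      have := (kap_spec ω n K).1 (by omega)
      omega
    have h2 : lenSum ω K ≤ 3 * n := by
      rcases Nat.eq_zero_or_pos K with h0 | h0
      · rw [h0, lenSum_zero]; omega
      · have h3 := (kap_spec ω n (K - 1)).2 (by omega)
        have h4 := lenSum_three ω (K - 1)
        rw [show K - 1 + 1 = K by omega] at h4
        omega
    have h3 : lenSum ω (K + t) ≤ 3 ^ (t + 1) * n := by
      have := lenSum_three_pow ω K t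
      calc _ ≤ 3 ^ t * lenSum ω K := this
        _ ≤ 3 ^ t * (3 * n) := Nat.mul_le_mul_left _ h2
        _ = _ := by ring
    have h4 := (kap_spec ω _ _).1 h3
    have h5 := growth_le ω h n K h1
    rw [model_eq]
    have h6 : 2 ^ (K + t + 1) ≤ 2 ^ kap ω (3 ^ (t + 1) * n) := Nat.pow_le_pow_right (by norm_num) h4
    have h7 : 3 * ((4 * ρ + 3) * 2 ^ K) ≤ 2 ^ kap ω (3 ^ (t + 1) * n) - 1 := by
      have h8 : 0 < 2 ^ K := by positivity
      have h9 : 2 ^ (K + t + 1) = 2 * (2 ^ t * 2 ^ K) := by ring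
      have h10 : 3 * (4 * ρ + 3) * 2 ^ K ≤ 2 ^ t * 2 ^ K := Nat.mul_le_mul_right _ ht.le
      have h11 : 0 < 2 ^ t * 2 ^ K := by positivity
      have h12 : 3 * ((4 * ρ + 3) * 2 ^ K) = 3 * (4 * ρ + 3) * 2 ^ K := by ring
      omega
    calc _ ≤ 6 ^ ((4 * ρ + 3) * 2 ^ K) := h5
      _ ≤ (2 ^ 3) ^ ((4 * ρ + 3) * 2 ^ K) := Nat.pow_le_pow_left (by norm_num) _
      _ = 2 ^ (3 * ((4 * ρ + 3) * 2 ^ K)) := by rw [← pow_mul]
      _ ≤ _ := Nat.pow_le_pow_right (by norm_num) h7

end Pool.Agent.MP_fbbd83_al.St
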